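import Mathlib

set_option autoImplicit false
set_option linter.unusedSimpArgs false
set_option linter.unusedVariables false
set_option linter.unreachableTactic false
set_option linter.unusedTactic false

namespace Pool.Agent.Results.MP_c865f9_co.Main

open SimpleGraph

/-- `m` disjoint copies of the complete bipartite graph `K_{s,t}`. -/
def mK (m s t : ℕ) : SimpleGraph (Fin m × (Fin s ⊕ Fin t)) where
  Adj a b := a.1 = b.1 ∧ (completeBipartiteGraph (Fin s) (Fin t)).Adj a.2 b.2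
  symm := ⟨fun _ _ h => ⟨h.1.symm, h.2.symm⟩⟩
  loopless := ⟨fun _ h => h.2.ne rfl⟩

/-- The edge label `f u + f v`. -/
def esum {V : Type} (f : V → ℕ) : Sym2 V → ℕ :=
  Sym2.lift ⟨fun u v => f u + f v, fun _ _ => Nat.add_comm _ _⟩

/-- Sequential graphs; `G.edgeSet.ncard` is the number `q` of edges. -/
def IsSequential {V : Type} (G : SimpleGraph V) : Prop :=
  ∃ (f : V → ℕ) (c : ℕ), 1 ≤ c ∧ Function.Injective f ∧
    ((∀ v, f v < G.edgeSet.ncard) ∨ (G.IsTree ∧ ∀ v, f v ≤ G.edgeSet.ncard)) ∧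
    Set.BijOn (esum f) G.edgeSet (Set.Ico c (c + G.edgeSet.ncard))

def Lab (m s t N : ℕ) : Prop := ∃ (A B : ℕ → ℕ → ℕ) (c : ℕ), 1 ≤ c ∧
  (∀ i < m, ∀ x < s, A i x < N) ∧ (∀ i < m, ∀ y < t, B i y < N) ∧
  (∀ i < m, ∀ x < s, ∀ j < m, ∀ z < s, A i x = A j z → i = j ∧ x = z) ∧
  (∀ i < m, ∀ x < t, ∀ j < m, ∀ z < t, B i x = B j z → i = j ∧ x = z) ∧
  (∀ i < m, ∀ x < s, ∀ j < m, ∀ z < t, A i x ≠ B j z) ∧
  (∀ i < m, ∀ x < s, ∀ y < t, c ≤ A i x + B i y ∧ A i x + B i y < c + m * s * t) ∧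
  (∀ i < m, ∀ x < s, ∀ y < t, ∀ j < m, ∀ z < s, ∀ w < t,
    A i x + B i y = A j z + B j w → i = j ∧ x = z ∧ y = w)

lemma Lab.swap {m s t N : ℕ} (h : Lab m s t N) : Lab m t s N := by
  obtain ⟨A, B, c, hc, h1, h2, h3, h4, h5, h6, h7⟩ := h
  refine ⟨B, A, c, hc, h2, h1, h4, h3, fun i hi x hx j hj z hz e => h5 j hj z hz i hi x hx e.symm,
    fun i hi x hx y hy => ?_, fun i hi x hx y hy j hj z hz w hw e => ?_⟩
  · have := h6 i hi y hy x hx
    rw [Nat.mul_right_comm m t s]; omega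
  · have := h7 i hi y hy x hx j hj w hw z hz (by omega)
    tauto

def ed {m s t : ℕ} (p : Fin m × Fin s × Fin t) : Sym2 (Fin m × (Fin s ⊕ Fin t)) :=
  s((p.1, Sum.inl p.2.1), (p.1, Sum.inr p.2.2))

lemma ed_inj {m s t : ℕ} : Function.Injective (ed (m := m) (s := s) (t := t)) := by
  rintro ⟨i, x, y⟩ ⟨j, z, w⟩ h
  simp only [ed, Sym2.eq_iff, Prod.mk.injEq, Sum.inl.injEq, Sum.inr.injEq, reduceCtorEq,
    and_false, or_false] at h
  simp [h.1.1, h.1.2, h.2.2]

lemma ed_range {m s t : ℕ} : Set.range (ed (m := m) (s := s) (t := t)) = (mK m s t).edgeSet := by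
  ext e
  induction e using Sym2.ind with
  | _ a b =>
    constructor
    · rintro ⟨⟨i, x, y⟩, h⟩
      rw [← h]
      simp [ed, mK]
    · intro h
      obtain ⟨i, a⟩ := a
      obtain ⟨j, b⟩ := b
      rw [mem_edgeSet] at h
      obtain ⟨h1, h2⟩ := h
      simp only at h1 h2
      subst h1
      rcases a with a | a <;> rcases b with b | b
      · simp at h2
      · exact ⟨(i, a, b), rfl⟩
      · exact ⟨(i, b, a), Sym2.eq_swap⟩
      · simp at h2

lemma ed_card (m s t : ℕ) : (mK m s t).edgeSet.ncard = m * s * t := by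
  rw [← ed_range, Set.ncard_range_of_injective ed_inj]
  simp [Nat.mul_assoc]

lemma of_lab {m s t N : ℕ} (h : Lab m s t N) : ∃ (f : Fin m × (Fin s ⊕ Fin t) → ℕ) (c : ℕ),
    1 ≤ c ∧ Function.Injective f ∧ (∀ v, f v < N) ∧
      Set.BijOn (esum f) (mK m s t).edgeSet (Set.Ico c (c + m * s * t)) := by
  obtain ⟨A, B, c, hc, h1, h2, h3, h4, h5, h6, h7⟩ := h
  let f : Fin m × (Fin s ⊕ Fin t) → ℕ := fun v =>
    Sum.elim (fun x => A v.1.val x.val) (fun y => B v.1.val y.val) v.2
  have hm : Set.MapsTo (esum f) (mK m s t).edgeSet (Set.Ico c (c + m * s * t)) := by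
    rw [← ed_range]
    rintro _ ⟨⟨i, x, y⟩, rfl⟩
    exact h6 i i.isLt x x.isLt y y.isLt
  have hi : Set.InjOn (esum f) (mK m s t).edgeSet := by
    rw [← ed_range]
    rintro _ ⟨⟨i, x, y⟩, rfl⟩ _ ⟨⟨j, z, w⟩, rfl⟩ e
    obtain ⟨e1, e2, e3⟩ := h7 i i.isLt x x.isLt y y.isLt j j.isLt z z.isLt w w.isLt e
    rw [Fin.ext e1, Fin.ext e2, Fin.ext e3]
  refine ⟨f, c, hc, ?_, ?_, hm, hi, ?_⟩
  · rintro ⟨i, a | a⟩ ⟨j, b | b⟩ e
    · obtain ⟨e1, e2⟩ := h3 i i.isLt a a.isLt j j.isLt b b.isLt e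
      rw [Fin.ext e1, Fin.ext e2]
    · exact absurd e (h5 i i.isLt a a.isLt j j.isLt b b.isLt)
    · exact absurd e.symm (h5 j j.isLt b b.isLt i i.isLt a a.isLt)
    · obtain ⟨e1, e2⟩ := h4 i i.isLt a a.isLt j j.isLt b b.isLt e
      rw [Fin.ext e1, Fin.ext e2]
  · rintro ⟨i, a | a⟩
    · exact h1 i i.isLt a a.isLt
    · exact h2 i i.isLt a a.isLt
  · have : esum f '' (mK m s t).edgeSet = Set.Ico c (c + m * s * t) := by
      apply Set.eq_of_subset_of_ncard_le hm.image_subset _ (Set.finite_Ico _ _)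
      rw [hi.ncard_image, ed_card, Set.ncard_eq_toFinset_card']
      simp
    exact this.ge

lemma to_lab {m s t N c : ℕ} (f : Fin m × (Fin s ⊕ Fin t) → ℕ) (hc : 1 ≤ c)
    (hf : Function.Injective f) (hb : ∀ v, f v < N)
    (hB : Set.BijOn (esum f) (mK m s t).edgeSet (Set.Ico c (c + m * s * t))) : Lab m s t N := by
  refine ⟨fun i x => if h : i < m ∧ x < s then f (⟨i, h.1⟩, Sum.inl ⟨x, h.2⟩) else 0,
    fun i x => if h : i < m ∧ x < t then f (⟨i, h.1⟩, Sum.inr ⟨x, h.2⟩) else 0, c, hc,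
    ?_, ?_, ?_, ?_, ?_, ?_, ?_⟩
  · intro i hi x hx; simp only [dif_pos (And.intro hi hx)]; exact hb _
  · intro i hi x hx; simp only [dif_pos (And.intro hi hx)]; exact hb _
  · intro i hi x hx j hj z hz e
    simp only [dif_pos (And.intro hi hx), dif_pos (And.intro hj hz)] at e
    simpa using hf e
  · intro i hi x hx j hj z hz e
    simp only [dif_pos (And.intro hi hx), dif_pos (And.intro hj hz)] at e
    simpa using hf e
  · intro i hi x hx j hj z hz e
    simp only [dif_pos (And.intro hi hx), dif_pos (And.intro hj hz)] at e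
    simpa using hf e
  · intro i hi x hx y hy
    simp only [dif_pos (And.intro hi hx), dif_pos (And.intro hi hy)]
    have : ed (⟨i, hi⟩, ⟨x, hx⟩, ⟨y, hy⟩) ∈ (mK m s t).edgeSet := ed_range ▸ ⟨_, rfl⟩
    exact hB.mapsTo this
  · intro i hi x hx y hy j hj z hz w hw e
    simp only [dif_pos (And.intro hi hx), dif_pos (And.intro hi hy), dif_pos (And.intro hj hz),
      dif_pos (And.intro hj hw)] at e
    have h1 : ed (⟨i, hi⟩, ⟨x, hx⟩, ⟨y, hy⟩) ∈ (mK m s t).edgeSet := ed_range ▸ ⟨_, rfl⟩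
    have h2 : ed (⟨j, hj⟩, ⟨z, hz⟩, ⟨w, hw⟩) ∈ (mK m s t).edgeSet := ed_range ▸ ⟨_, rfl⟩
    simpa using ed_inj (hB.injOn h1 h2 e)

lemma tree_card {m s t : ℕ} (h : (mK m s t).IsTree) : m * s * t + 1 = m * (s + t) := by
  have := (isTree_iff_connected_and_card.1 h).2
  rw [Nat.card_coe_set_eq, ed_card] at this
  simpa using this

lemma star_tree {s t : ℕ} (hs : 1 ≤ s) (ht : 1 ≤ t) (h : s = 1 ∨ t = 1) : (mK 1 s t).IsTree := by
  rw [isTree_iff_connected_and_card]
  refine ⟨?_, ?_⟩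
  · have r : ∀ (x : Fin s) (y : Fin t), (mK 1 s t).Reachable (0, Sum.inl x) (0, Sum.inr y) :=
      fun x y => Adj.reachable (by simp [mK])
    haveI : Nonempty (Fin 1 × (Fin s ⊕ Fin t)) := ⟨(0, Sum.inl ⟨0, hs⟩)⟩
    refine ⟨?_⟩
    rintro ⟨i, a⟩ ⟨j, b⟩
    rw [Subsingleton.elim i 0, Subsingleton.elim j 0]
    rcases a with a | a <;> rcases b with b | b
    · exact (r a ⟨0, ht⟩).trans (r b ⟨0, ht⟩).symm
    · exact r a b
    · exact (r b a).symm
    · exact (r ⟨0, hs⟩ a).symm.trans (r ⟨0, hs⟩ b)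
  · rw [Nat.card_coe_set_eq, ed_card]
    rcases h with rfl | rfl <;> simp <;> omega

lemma neg_one {s t : ℕ} (hs : 1 ≤ s) (ht : 1 ≤ t) : ¬ Lab 1 s t (s * t) := by
  rintro ⟨A, B, c, hc, h1, h2, h3, h4, h5, h6, h7⟩
  have hq : 0 < s * t := Nat.mul_pos hs ht
  haveI : NeZero (s * t) := ⟨hq.ne'⟩
  let g : Fin s × Fin t → ZMod (s * t) := fun p => (A 0 p.1.val : ZMod (s * t)) - B 0 p.2.val
  have gi : Function.Injective g := by
    rintro ⟨x, y⟩ ⟨z, w⟩ e
    have e1 : ((A 0 x.val + B 0 w.val : ℕ) : ZMod (s * t)) = ((A 0 z.val + B 0 y.val : ℕ) : ZMod (s * t)) := by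
      simp only [g] at e
      push_cast
      linear_combination e
    rw [ZMod.natCast_eq_natCast_iff] at e1
    have b1 := h6 0 (by omega) x x.isLt w w.isLt
    have b2 := h6 0 (by omega) z z.isLt y y.isLt
    rw [Nat.one_mul] at b1 b2
    have e2 := Nat.ModEq.eq_of_abs_lt e1 (by rw [abs_lt]; constructor <;> omega)
    obtain ⟨_, e3, e4⟩ := h7 0 (by omega) x x.isLt w w.isLt 0 (by omega) z z.isLt y y.isLt e2
    rw [Fin.ext e3, Fin.ext e4]
  have gs : Function.Surjective g :=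
    ((Fintype.bijective_iff_injective_and_card g).2 ⟨gi, by simp⟩).2
  obtain ⟨⟨x, y⟩, e⟩ := gs 0
  have e1 : ((A 0 x.val : ℕ) : ZMod (s * t)) = ((B 0 y.val : ℕ) : ZMod (s * t)) := sub_eq_zero.1 e
  rw [ZMod.natCast_eq_natCast_iff] at e1
  have b1 := h1 0 (by omega) x x.isLt
  have b2 := h2 0 (by omega) y y.isLt
  exact h5 0 (by omega) x x.isLt 0 (by omega) y y.isLt
    (Nat.ModEq.eq_of_abs_lt e1 (by rw [abs_lt]; constructor <;> omega))

lemma neg_card {m s t : ℕ} (h : Lab m s t (m * s * t)) : m * (s + t) ≤ m * s * t := by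
  obtain ⟨f, c, _, hf, hb, _⟩ := of_lab h
  have := Fintype.card_le_of_injective (fun v => (⟨f v, hb v⟩ : Fin (m * s * t)))
    (fun u v e => hf (by simpa using e))
  simpa using this

lemma neg_22 {m : ℕ} (hm : 1 ≤ m) : ¬ Lab m 2 2 (m * 2 * 2) := by
  intro h
  obtain ⟨f, c, _, hf, hb, hB⟩ := of_lab h
  have s1 : ∑ v, f v = ∑ k ∈ Finset.range (m * 2 * 2), k := by
    have : Finset.univ.image f = Finset.range (m * 2 * 2) := by
      apply Finset.eq_of_subset_of_card_le
      · intro z hz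
        obtain ⟨v, _, rfl⟩ := Finset.mem_image.1 hz
        exact Finset.mem_range.2 (hb v)
      · rw [Finset.card_image_of_injective _ hf]; simp; omega
    rw [← this, Finset.sum_image (fun a _ b _ e => hf e)]
  have hi : Function.Injective (fun p : Fin m × Fin 2 × Fin 2 => esum f (ed p)) :=
    fun a b e => ed_inj (hB.injOn (ed_range ▸ ⟨_, rfl⟩) (ed_range ▸ ⟨_, rfl⟩) e)
  have s2 : ∑ p : Fin m × Fin 2 × Fin 2, esum f (ed p) = ∑ k ∈ Finset.Ico c (c + m * 2 * 2), k := by
    have : Finset.univ.image (fun p : Fin m × Fin 2 × Fin 2 => esum f (ed p)) =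
        Finset.Ico c (c + m * 2 * 2) := by
      apply Finset.eq_of_subset_of_card_le
      · intro z hz
        obtain ⟨v, _, rfl⟩ := Finset.mem_image.1 hz
        exact Finset.mem_Ico.2 (hB.mapsTo (ed_range ▸ ⟨_, rfl⟩))
      · rw [Finset.card_image_of_injective _ hi]; simp; omega
    rw [← this, Finset.sum_image (fun a _ b _ e => hi e)]
  have s3 : ∑ p : Fin m × Fin 2 × Fin 2, esum f (ed p) = 2 * ∑ v, f v := by
    simp only [Fintype.sum_prod_type, Fintype.sum_sum_type, Fin.sum_univ_two, Finset.mul_sum, ed,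
      esum, Sym2.lift_mk]
    exact Finset.sum_congr rfl (fun i _ => by ring)
  rw [Finset.sum_Ico_eq_sum_range, Nat.add_sub_cancel_left, Finset.sum_add_distrib] at s2
  have s4 := Finset.sum_range_id_mul_two (m * 2 * 2)
  simp only [Finset.sum_const, Finset.card_range, smul_eq_mul] at s2
  obtain ⟨k, rfl⟩ : ∃ k, m = k + 1 := ⟨m - 1, by omega⟩
  rw [show (k + 1) * 2 * 2 - 1 = 4 * k + 3 by omega] at s4
  have s5 : (k + 1) * 2 * 2 * (2 * c) = (k + 1) * 2 * 2 * (4 * k + 3) := by
    rw [← s4]; nlinarith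
  have := Nat.eq_of_mul_eq_mul_left (by omega) s5
  omega

lemma radix {s X Y x y : ℕ} (hx : x < s) (hy : y < s) (e : s * X + x = s * Y + y) :
    X = Y ∧ x = y := by
  rcases lt_trichotomy X Y with h | h | h
  · have := Nat.mul_le_mul_left s (show X + 1 ≤ Y from h)
    rw [Nat.mul_add] at this; omega
  · subst h; omega
  · have := Nat.mul_le_mul_left s (show Y + 1 ≤ X from h)
    rw [Nat.mul_add] at this; omega

lemma intv (m s t c : ℕ) (a : ℕ → ℕ) (J : ℕ → ℕ → ℕ) (hs : 1 ≤ s) (hc : 1 ≤ c)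
    (h1 : ∀ i < m, a i + s ≤ m * s * t)
    (h2 : ∀ i < m, ∀ j < m, i < j → a i + s ≤ a j)
    (h3 : ∀ i < m, ∀ y < t, J i y < m * t)
    (h4 : ∀ i < m, ∀ y < t, ∀ j < m, ∀ z < t, J i y = J j z → i = j ∧ y = z)
    (h5 : ∀ i < m, ∀ y < t, a i ≤ c + s * J i y ∧ c + s * J i y < m * s * t + a i)
    (h6 : ∀ i < m, ∀ y < t, ∀ j < m, c + s * J i y < a i + a j ∨ a i + a j + s ≤ c + s * J i y)
    (h7 : ∀ i < m, ∀ y < t, ∀ j < m, ∀ z < t, i < j → s * J i y + a j ≠ s * J j z + a i) :
    Lab m s t (m * s * t) := by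
  refine ⟨fun i x => a i + x, fun i y => c + s * J i y - a i, c, hc, ?_, ?_, ?_, ?_, ?_, ?_, ?_⟩
  · intro i hi x hx; have := h1 i hi; beta_reduce; omega
  · intro i hi x hx; have := h5 i hi x hx; beta_reduce; omega
  · intro i hi x hx j hj z hz e
    simp only at e
    rcases lt_trichotomy i j with h | h | h
    · have := h2 i hi j hj h; omega
    · subst h; omega
    · have := h2 j hj i hi h; omega
  · intro i hi x hx j hj z hz e
    simp only at e
    have b1 := h5 i hi x hx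
    have b2 := h5 j hj z hz
    rcases lt_trichotomy i j with h | h | h
    · have := h7 i hi x hx j hj z hz h; omega
    · subst h
      exact h4 i hi x hx i hi z hz (Nat.eq_of_mul_eq_mul_left hs (by omega))
    · have := h7 j hj z hz i hi x hx h; omega
  · intro i hi x hx j hj z hz
    have := h6 j hj z hz i hi
    have := h5 j hj z hz
    beta_reduce; omega
  · intro i hi x hx y hy
    have b1 := h5 i hi y hy
    have b2 := Nat.mul_le_mul_left s (show J i y + 1 ≤ m * t from h3 i hi y hy)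
    rw [Nat.mul_add, ← Nat.mul_assoc, Nat.mul_comm s m] at b2
    beta_reduce; omega
  · intro i hi x hx y hy j hj z hz w hw e
    have b1 := h5 i hi y hy
    have b2 := h5 j hj w hw
    simp only at e
    obtain ⟨e1, e2⟩ := radix (X := J i y) (Y := J j w) hx hz (by omega)
    obtain ⟨e3, e4⟩ := h4 i hi y hy j hj w hw e1
    exact ⟨e3, e2, e4⟩

def a1 (s i : ℕ) : ℕ := if i = 0 then 0 else if i = 1 then s else s * i + i - 1
def J1 (t i y : ℕ) : ℕ := if i = 0 then y + 1 else if i = 1 then (if y = 0 then 0 else t + 1 + y)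
  else if i = 2 ∧ y = 0 then t + 1 else i * t + y

lemma key {s X Y r : ℕ} (hs : 0 < s) (h : s * X + r = s * Y) : ∃ e, Y = X + e ∧ s * e = r := by
  have : X ≤ Y := Nat.le_of_mul_le_mul_left (by omega : s * X ≤ s * Y) hs
  obtain ⟨e, rfl⟩ := Nat.exists_eq_add_of_le this
  exact ⟨e, rfl, by rw [Nat.mul_add] at h; omega⟩

lemma pos1 (n s t : ℕ) (hs : 2 ≤ s) (ht : 3 ≤ t) (hst : s + t + 2 ≤ s * t) :
    Lab (n + 3) s t ((n + 3) * s * t) := by
  have mono : ∀ i j u : ℕ, i < j → i * u + u ≤ j * u := fun i j u h => by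
    have := Nat.mul_le_mul_right u (show i + 1 ≤ j from h); rwa [Nat.add_mul, Nat.one_mul] at this
  have mono' : ∀ i j u : ℕ, i < j → u * i + u ≤ u * j := fun i j u h => by
    rw [Nat.mul_comm u i, Nat.mul_comm u j]; exact mono i j u h
  have amax : ∀ i < n + 3, a1 s i + 1 ≤ s * (n + 2) + (n + 2) := by
    intro i hi
    have := Nat.mul_le_mul_left s (show i ≤ n + 2 by omega)
    have := mono' 1 (n + 2) s (by omega)
    unfold a1; split_ifs <;> omega
  have ainc : ∀ i j, i < j → a1 s i + s ≤ a1 s j := by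
    intro i j h
    have := mono' i j s h
    unfold a1; split_ifs <;> first | omega | (subst_vars; omega)
  have q1 : (n + 3) * s * t = (n + 3) * (s * t) := Nat.mul_assoc _ _ _
  refine intv (n + 3) s t (s * (n + 2) + n + s) (a1 s) (J1 t) (by omega) (by omega) ?_
    (fun i _ j _ h => ainc i j h) ?_ ?_ ?_ ?_ ?_
  · intro i hi
    have := amax i hi
    nlinarith
  · intro i hi y hy
    have := mono i (n + 3) t hi
    have := mono 2 (n + 3) t (by omega)
    unfold J1; split_ifs <;> omega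
  · intro i hi y hy j hj z hz e
    have h3 : 3 ≤ i → 3 * t ≤ i * t := fun h => Nat.mul_le_mul_right t h
    have h4 : 3 ≤ j → 3 * t ≤ j * t := fun h => Nat.mul_le_mul_right t h
    have h5 : i = 2 → i * t = 2 * t := fun h => by rw [h]
    have h6 : j = 2 → j * t = 2 * t := fun h => by rw [h]
    have h7 := mono i j t
    have h8 := mono j i t
    have h9 : i = j → i * t = j * t := fun h => by rw [h]
    unfold J1 at e; split_ifs at e <;> omega
  · intro i hi y hy
    refine ⟨by have := amax i hi; omega, ?_⟩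
    by_cases c0 : i = 0
    · subst c0
      have : s * (y + 1) ≤ s * t := Nat.mul_le_mul_left s hy
      simp only [a1, J1, if_true]; nlinarith
    by_cases c1 : i = 1
    · subst c1
      have : J1 t 1 y ≤ 2 * t := by unfold J1; split_ifs <;> omega
      have := Nat.mul_le_mul_left s this
      have : a1 s 1 = s := by simp [a1]
      have : s * 3 ≤ s * t := Nat.mul_le_mul_left s ht
      nlinarith
    · have b1 : J1 t i y + 1 ≤ i * t + t := by
        have := Nat.mul_le_mul_right t (show 2 ≤ i by omega)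
        unfold J1; split_ifs <;> omega
      have b2 := Nat.mul_le_mul_left s b1
      have b3 : a1 s i + 1 = s * i + i := by unfold a1; split_ifs; omega
      obtain ⟨k, hk⟩ : ∃ k, n + 2 = i + k := ⟨n + 2 - i, by omega⟩
      have b4 : k * (s + 1) ≤ k * (s * t) := Nat.mul_le_mul_left k (by omega)
      have b5 : (n + 3) * (s * t) = s * (i * t + t) + k * (s * t) := by
        rw [show n + 3 = i + k + 1 by omega]; ring
      have b6 : s * (n + 2) = s * i + k * s := by rw [hk]; ring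
      rw [Nat.mul_add k s 1] at b4
      rw [Nat.mul_add s _ 1] at b2
      omega
  · intro i hi y hy j hj
    have b0 := amax j hj
    by_cases c1 : i = 1 ∧ y = 0
    · obtain ⟨rfl, rfl⟩ := c1
      have e1 : a1 s 1 = s := by simp [a1]
      have e2 : J1 t 1 0 = 0 := by simp [J1]
      have e3 : a1 s (n + 2) = s * (n + 2) + (n + 1) := by simp [a1]
      rw [e1, e2]
      by_cases c2 : j = n + 2
      · subst c2; left; omega
      · right
        have := mono' j (n + 2) s (by omega)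
        unfold a1; split_ifs <;> first | omega | (subst_vars; omega)
    · right
      have : a1 s i < s * J1 t i y := by
        by_cases c0 : i = 0
        · subst c0; simp only [a1, J1, if_true]; positivity
        by_cases c2 : i = 1
        · subst c2
          have : 2 ≤ J1 t 1 y := by unfold J1; split_ifs <;> omega
          have := Nat.mul_le_mul_left s this
          have : a1 s 1 = s := by simp [a1]
          omega
        · have b3 : a1 s i + 1 = s * i + i := by unfold a1; split_ifs; omega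
          have b4 : 2 * i ≤ J1 t i y := by
            have := Nat.mul_le_mul_left i ht
            unfold J1; split_ifs <;> omega
          have b5 := Nat.mul_le_mul_left s b4
          have b6 : 2 * i ≤ s * i := Nat.mul_le_mul_right i hs
          have b7 : s * (2 * i) = 2 * (s * i) := by ring
          omega
      omega
  · intro i hi y hy j hj z hz hij e
    have fin : ∀ e : ℕ, 1 ≤ e → s * e + t + 2 * e ≤ s * e * t := by
      intro e he
      have := Nat.mul_le_mul_left e hst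
      nlinarith
    by_cases cj : j = 1
    · subst cj
      obtain rfl : i = 0 := by omega
      have e1 : a1 s 1 = s := by simp [a1]
      have e2 : a1 s 0 = 0 := by simp [a1]
      rw [e1, e2, ← Nat.mul_succ, Nat.add_zero] at e
      have := Nat.eq_of_mul_eq_mul_left (by omega) e
      unfold J1 at this; split_ifs at this <;> omega
    have b3 : a1 s j + 1 = s * j + j := by unfold a1; split_ifs <;> omega
    have b4 : 3 ≤ j → j * t ≤ J1 t j z := by intro h; unfold J1; split_ifs <;> omega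
    by_cases c0 : i = 0
    · subst c0
      have e2 : a1 s 0 = 0 := by simp [a1]
      have e3 : J1 t 0 y ≤ t := by unfold J1; split_ifs <;> omega
      obtain ⟨k, h1, h2⟩ := key (s := s) (X := J1 t 0 y + j) (Y := J1 t j z) (r := j - 1) (by omega)
        (by rw [Nat.mul_add]; omega)
      have hk : 1 ≤ k := by
        rcases k with _ | k
        · omega
        · omega
      have := fin k hk
      have := Nat.mul_le_mul_left s hk
      have : j * t = s * k * t + t := by rw [show j = s * k + 1 by omega]; ring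
      omega
    by_cases c1 : i = 1
    · subst c1
      have e2 : a1 s 1 = s := by simp [a1]
      have e3 : J1 t 1 y ≤ 2 * t := by unfold J1; split_ifs <;> omega
      have e4 : s * j = s * (j - 1) + s := by rw [← Nat.mul_succ]; congr 1; omega
      obtain ⟨k, h1, h2⟩ := key (s := s) (X := J1 t 1 y + (j - 1)) (Y := J1 t j z) (r := j - 1)
        (by omega) (by rw [Nat.mul_add]; omega)
      have hk : 1 ≤ k := by
        rcases k with _ | k
        · omega
        · omega
      have := fin k hk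
      have := Nat.mul_le_mul_left s hk
      have : j * t = s * k * t + t := by rw [show j = s * k + 1 by omega]; ring
      omega
    · have b5 : a1 s i + 1 = s * i + i := by unfold a1; split_ifs; omega
      have b1 : J1 t i y + 1 ≤ i * t + t := by
        have := Nat.mul_le_mul_right t (show 2 ≤ i by omega)
        unfold J1; split_ifs <;> omega
      obtain ⟨d, rfl⟩ : ∃ d, j = i + d := ⟨j - i, by omega⟩
      obtain ⟨k, h1, h2⟩ := key (s := s) (X := J1 t i y + d) (Y := J1 t (i + d) z) (r := d)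
        (by omega) (by rw [Nat.mul_add] at b3 ⊢; omega)
      have hk : 1 ≤ k := by
        rcases k with _ | k
        · omega
        · omega
      have := fin k hk
      have : (i + d) * t = i * t + s * k * t := by rw [h2]; ring
      omega

def a2 (m i : ℕ) : ℕ := if m % 2 = 0 then (if i < 2 then (5 * i + 1) / 2 else (5 * i + 1) / 2 + 1)
  else (if i < 1 then 0 else 5 * i / 2 + 1)
def tri (y p q r : ℕ) : ℕ := if y = 0 then p else if y = 1 then q else r
lemma tri0 (p q r : ℕ) : tri 0 p q r = p := rfl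
lemma tri1 (p q r : ℕ) : tri 1 p q r = q := rfl
lemma tri2 (p q r : ℕ) : tri 2 p q r = r := rfl
def J2 (m i y : ℕ) : ℕ :=
  if i + 1 = m then tri y (3 * i - 2) (3 * i) (3 * i + 2)
  else if i = 0 then tri y 1 2 (4 + m % 2)
  else if i = 1 then tri y 3 (5 - m % 2) (8 - m % 2)
  else if i = 2 then tri y 0 6 (10 - m % 2)
  else if (i + m) % 2 = 0 then tri y (3 * i - 1) (3 * i + 2) (3 * i + 4)
  else tri y (3 * i - 2) (3 * i) (3 * i + 3)

lemma pos23 (m : ℕ) (hm : 5 ≤ m) : Lab m 2 3 (m * 2 * 3) := by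
  have tri3 : ∀ y < 3, y = 0 ∨ y = 1 ∨ y = 2 := fun y h => by omega
  have par : ∀ j : ℕ, ∃ k, j = 2 * k ∨ j = 2 * k + 1 := fun j => ⟨j / 2, by omega⟩
  refine intv m 2 3 (a2 m (m - 1)) (a2 m) (J2 m) (by omega) ?_ ?_ ?_ ?_ ?_ ?_ ?_ ?_
  · unfold a2; split_ifs <;> omega
  · intro i hi; unfold a2; split_ifs <;> omega
  · intro i hi j hj h; unfold a2; split_ifs <;> omega
  · intro i hi y hy
    rcases tri3 y hy with rfl | rfl | rfl <;> simp only [J2, tri0, tri1, tri2] <;> split_ifs <;> omega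
  · intro i hi y hy j hj z hz e
    rcases tri3 y hy with rfl | rfl | rfl <;> rcases tri3 z hz with rfl | rfl | rfl <;>
      simp only [J2, tri0, tri1, tri2] at e <;> split_ifs at e <;> omega
  · intro i hi y hy
    rcases tri3 y hy with rfl | rfl | rfl <;> simp only [J2, tri0, tri1, tri2, a2] <;>
      split_ifs <;> omega
  · intro i hi y hy j hj
    obtain ⟨k, rfl | rfl⟩ := par j <;>
    rcases tri3 y hy with rfl | rfl | rfl <;> simp only [J2, tri0, tri1, tri2, a2] <;>
      split_ifs <;> omega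
  · intro i hi y hy j hj z hz hij e
    rcases tri3 y hy with rfl | rfl | rfl <;> rcases tri3 z hz with rfl | rfl | rfl <;>
      simp only [J2, tri0, tri1, tri2, a2] at e <;> split_ifs at e <;> omega

def tb (L : List (List ℕ)) (i x : ℕ) : ℕ := (L.getD i []).getD x 0

set_option synthInstance.maxSize 4096 in
lemma pos323 : Lab 3 2 3 (3 * 2 * 3) :=
  ⟨tb [[0, 1], [2, 3], [5, 6]], tb [[8, 10, 12], [4, 14, 16], [9, 15, 17]], 6,
   by decide, by decide, by decide, by decide +kernel, by decide +kernel, by decide +kernel,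
   by decide +kernel, by decide +kernel⟩

set_option synthInstance.maxSize 4096 in
lemma pos423 : Lab 4 2 3 (4 * 2 * 3) :=
  ⟨tb [[0, 1], [2, 3], [5, 6], [9, 10]], tb [[7, 11, 15], [17, 19, 21], [4, 8, 12], [16, 18, 20]], 7,
   by decide, by decide, by decide, by decide +kernel, by decide +kernel, by decide +kernel,
   by decide +kernel, by decide +kernel⟩

set_option synthInstance.maxSize 4096 in
lemma pos244 : Lab 2 4 4 (2 * 4 * 4) :=
  ⟨tb [[0, 1, 2, 3], [5, 6, 9, 10]], tb [[4, 8, 12, 16], [15, 17, 23, 25]], 4,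
   by decide, by decide, by decide, by decide +kernel, by decide +kernel, by decide +kernel,
   by decide +kernel, by decide +kernel⟩

lemma two (s t N c : ℕ) (A0 B0 A1 B1 : ℕ → ℕ) (hc : 1 ≤ c)
    (b1 : ∀ x < s, A0 x < N ∧ A1 x < N) (b2 : ∀ x < t, B0 x < N ∧ B1 x < N)
    (i1 : ∀ x < s, ∀ z < s, (A0 x = A0 z → x = z) ∧ (A1 x = A1 z → x = z) ∧ A0 x ≠ A1 z)
    (i2 : ∀ x < t, ∀ z < t, (B0 x = B0 z → x = z) ∧ (B1 x = B1 z → x = z) ∧ B0 x ≠ B1 z)
    (i3 : ∀ x < s, ∀ z < t, A0 x ≠ B0 z ∧ A0 x ≠ B1 z ∧ A1 x ≠ B0 z ∧ A1 x ≠ B1 z)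
    (r : ∀ x < s, ∀ y < t, c ≤ A0 x + B0 y ∧ A0 x + B0 y < c + s * t ∧
      c + s * t ≤ A1 x + B1 y ∧ A1 x + B1 y < c + 2 * (s * t))
    (i4 : ∀ x < s, ∀ y < t, ∀ z < s, ∀ w < t, (A0 x + B0 y = A0 z + B0 w → x = z ∧ y = w) ∧
      (A1 x + B1 y = A1 z + B1 w → x = z ∧ y = w)) : Lab 2 s t N := by
  have t2 : ∀ i < 2, i = 0 ∨ i = 1 := fun i h => by omega
  refine ⟨fun i => if i = 0 then A0 else A1, fun i => if i = 0 then B0 else B1, c, hc,
    ?_, ?_, ?_, ?_, ?_, ?_, ?_⟩
  · intro i hi x hx; have := b1 x hx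
    rcases t2 i hi with rfl | rfl <;> simp <;> omega
  · intro i hi x hx; have := b2 x hx
    rcases t2 i hi with rfl | rfl <;> simp <;> omega
  · intro i hi x hx j hj z hz; have := i1 x hx z hz; have := i1 z hz x hx
    rcases t2 i hi with rfl | rfl <;> rcases t2 j hj with rfl | rfl <;> simp <;> omega
  · intro i hi x hx j hj z hz; have := i2 x hx z hz; have := i2 z hz x hx
    rcases t2 i hi with rfl | rfl <;> rcases t2 j hj with rfl | rfl <;> simp <;> omega
  · intro i hi x hx j hj z hz; have := i3 x hx z hz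
    rcases t2 i hi with rfl | rfl <;> rcases t2 j hj with rfl | rfl <;> simp <;> omega
  · intro i hi x hx y hy; have := r x hx y hy
    rw [Nat.mul_assoc]
    rcases t2 i hi with rfl | rfl <;> simp <;> omega
  · intro i hi x hx y hy j hj z hz w hw
    have := r x hx y hy; have := r z hz w hw; have := i4 x hx y hy z hz w hw
    rcases t2 i hi with rfl | rfl <;> rcases t2 j hj with rfl | rfl <;> simp <;> omega

lemma pos2 (s t : ℕ) (hs : 2 ≤ s) (ht : s < t) (hst : s + t + 2 ≤ s * t) :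
    Lab 2 s t (2 * s * t) := by
  have m1 : ∀ x < s, t * x + t ≤ s * t := fun x h => by
    have := Nat.mul_le_mul_left t (show x + 1 ≤ s from h); nlinarith
  have m2 : ∀ y < t, s * y + s ≤ s * t := fun y h => by
    have := Nat.mul_le_mul_left s (show y + 1 ≤ t from h); nlinarith
  rw [Nat.mul_assoc]
  refine two s t _ t (fun x => t * x + t) (fun y => y) (fun x => t + 1 + x)
    (fun y => s * t - 1 + s * y) (by omega) ?_ ?_ ?_ ?_ ?_ ?_ ?_
  · intro x hx; have := m1 x hx; beta_reduce; omega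
  · intro x hx; have := m2 x hx; beta_reduce; omega
  · intro x hx z hz
    refine ⟨fun e => Nat.eq_of_mul_eq_mul_left (by omega : 0 < t) (by omega), by omega, fun e => ?_⟩
    have := radix (s := t) (X := x) (Y := 0) (x := 0) (y := z + 1) (by omega) (by omega) (by omega)
    omega
  · intro x hx z hz
    exact ⟨id, fun e => Nat.eq_of_mul_eq_mul_left (by omega : 0 < s) (by omega), by omega⟩
  · intro x hx z hz
    have := m1 x hx
    refine ⟨by omega, fun e => ?_, by omega, by omega⟩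
    rcases z with _ | z
    · have := radix (s := t) (X := x + 1) (Y := s - 1) (x := 0) (y := t - 1) (by omega) (by omega)
        (by
          have : t * (s - 1) + t = s * t := by
            rw [← Nat.mul_succ, Nat.mul_comm]; congr 1; omega
          rw [Nat.mul_add]; omega)
      omega
    · rw [Nat.mul_add] at e; omega
  · intro x hx y hy; have := m1 x hx; have := m2 y hy; beta_reduce; omega
  · intro x hx y hy z hz w hw
    refine ⟨fun e => radix hy hw (by omega), fun e => ?_⟩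
    have := radix (X := y) (Y := w) hx hz (by omega)
    omega

lemma pos3 (u v : ℕ) (hu : 2 ≤ u) (hv : 2 ≤ v) (h5 : 5 ≤ u * v) :
    Lab 2 (u * v) (u * v) (2 * (u * v) * (u * v)) := by
  obtain ⟨s, hs⟩ : ∃ s, s = u * v := ⟨_, rfl⟩
  rw [← hs] at h5 ⊢
  have m0 : 2 * u ≤ s := by rw [hs]; nlinarith
  have m1 : ∀ x < s, s * x + s ≤ s * s := fun x h => Nat.mul_le_mul_left s (show x + 1 ≤ s from h)
  have m2 : ∀ x < s, u * x + u ≤ u * s := fun x h => Nat.mul_le_mul_left u (show x + 1 ≤ s from h)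
  have m3 : s + 2 + u * s + u < s * s := by nlinarith
  have m4 : ∀ y, y % u < u := fun y => Nat.mod_lt _ (by omega)
  have m5 : ∀ y < s, u * s * (y / u) + u * s ≤ s * s := fun y h => by
    have h1 : y / u < v := Nat.div_lt_of_lt_mul (hs ▸ h)
    have h2 := Nat.mul_le_mul_left (u * s) (show y / u + 1 ≤ v from h1)
    have h3 : u * s * v = s * s := by rw [Nat.mul_right_comm, ← hs]
    rw [Nat.mul_add] at h2; omega
  have m6 : 2 * s ≤ u * s := Nat.mul_le_mul_right s hu
  have dm : ∀ y w, y / u = w / u → y % u = w % u → y = w := fun y w h1 h2 => by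
    rw [← Nat.div_add_mod y u, ← Nat.div_add_mod w u, h1, h2]
  rw [Nat.mul_assoc]
  refine two s s _ s (fun x => x) (fun y => s * y + s) (fun x => s + u + 1 + u * x)
    (fun y => s * s - u - 1 + y % u + u * s * (y / u)) (by omega) ?_ ?_ ?_ ?_ ?_ ?_ ?_
  · intro x hx; have := m2 x hx; beta_reduce; omega
  · intro x hx; have := m1 x hx; have := m5 x hx; have := m4 x; beta_reduce; omega
  · intro x hx z hz
    exact ⟨id, fun e => Nat.eq_of_mul_eq_mul_left (by omega : 0 < u) (by omega), by omega⟩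
  · intro x hx z hz
    have := m4 x; have := m4 z
    refine ⟨fun e => Nat.eq_of_mul_eq_mul_left (by omega : 0 < s) (by omega), fun e => ?_, fun e => ?_⟩
    · have := radix (s := u * s) (X := x / u) (Y := z / u) (x := x % u) (y := z % u) (by omega)
        (by omega) (by omega)
      exact dm x z this.1 this.2
    · have := m1 x hx
      rcases h : z / u with _ | k
      · rw [h] at e
        have := radix (s := s) (X := x + 1) (Y := s - 1) (x := 0) (y := s - u - 1 + z % u) (by omega)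
          (by omega) (by
            have : s * (s - 1) + s = s * s := by rw [← Nat.mul_succ]; congr 1; omega
            rw [Nat.mul_add]; omega)
        omega
      · rw [h, Nat.mul_add] at e; omega
  · intro x hx z hz
    have := m2 x hx
    refine ⟨by omega, by omega, fun e => ?_, by omega⟩
    have := radix (s := u) (X := x + 1) (Y := v * z) (x := 1) (y := 0) (by omega) (by omega) (by
      rw [← Nat.mul_assoc, ← hs, Nat.mul_add]; omega)
    omega
  · intro x hx y hy
    have := m1 y hy; have := m2 x hx; have := m5 y hy; have := m4 y; beta_reduce; omega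
  · intro x hx y hy z hz w hw
    refine ⟨fun e => ?_, fun e => ?_⟩
    · have := radix (X := y) (Y := w) hx hz (by omega)
      omega
    · have := m2 x hx; have := m2 z hz; have := m4 y; have := m4 w
      have e1 := radix (s := u * s) (X := y / u) (Y := w / u) (x := u * x + y % u) (y := u * z + w % u)
        (by omega) (by omega) (by omega)
      have e2 := radix (m4 y) (m4 w) e1.2
      exact ⟨e2.1, dm y w e1.1 e2.2⟩

def H (a1 a2 a3 b0 b1 b2 b3 b4 b5 : ℕ) : Prop :=
  a1 < 12 ∧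
  a2 < 12 ∧
  a3 < 12 ∧
  b0 < 12 ∧
  b1 < 12 ∧
  b2 < 12 ∧
  b3 < 12 ∧
  b4 < 12 ∧
  b5 < 12 ∧
  0 ≠ a1 ∧
  0 ≠ a2 ∧
  0 ≠ a3 ∧
  0 ≠ b0 ∧
  0 ≠ b1 ∧
  0 ≠ b2 ∧
  0 ≠ b3 ∧
  0 ≠ b4 ∧
  0 ≠ b5 ∧
  a1 ≠ a2 ∧
  a1 ≠ a3 ∧
  a1 ≠ b0 ∧
  a1 ≠ b1 ∧
  a1 ≠ b2 ∧
  a1 ≠ b3 ∧
  a1 ≠ b4 ∧
  a1 ≠ b5 ∧
  a2 ≠ a3 ∧
  a2 ≠ b0 ∧
  a2 ≠ b1 ∧
  a2 ≠ b2 ∧
  a2 ≠ b3 ∧
  a2 ≠ b4 ∧
  a2 ≠ b5 ∧
  a3 ≠ b0 ∧
  a3 ≠ b1 ∧
  a3 ≠ b2 ∧
  a3 ≠ b3 ∧
  a3 ≠ b4 ∧
  a3 ≠ b5 ∧
  b0 ≠ b1 ∧
  b0 ≠ b2 ∧
  b0 ≠ b3 ∧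
  b0 ≠ b4 ∧
  b0 ≠ b5 ∧
  b1 ≠ b2 ∧
  b1 ≠ b3 ∧
  b1 ≠ b4 ∧
  b1 ≠ b5 ∧
  b2 ≠ b3 ∧
  b2 ≠ b4 ∧
  b2 ≠ b5 ∧
  b3 ≠ b4 ∧
  b3 ≠ b5 ∧
  b4 ≠ b5 ∧
  b0 % 12 ≠ (a1 + b0) % 12 ∧
  b0 % 12 ≠ b1 % 12 ∧
  b0 % 12 ≠ (a1 + b1) % 12 ∧
  b0 % 12 ≠ b2 % 12 ∧
  b0 % 12 ≠ (a1 + b2) % 12 ∧
  b0 % 12 ≠ (a2 + b3) % 12 ∧
  b0 % 12 ≠ (a3 + b3) % 12 ∧
  b0 % 12 ≠ (a2 + b4) % 12 ∧
  b0 % 12 ≠ (a3 + b4) % 12 ∧
  b0 % 12 ≠ (a2 + b5) % 12 ∧
  b0 % 12 ≠ (a3 + b5) % 12 ∧
  (a1 + b0) % 12 ≠ b1 % 12 ∧
  (a1 + b0) % 12 ≠ (a1 + b1) % 12 ∧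
  (a1 + b0) % 12 ≠ b2 % 12 ∧
  (a1 + b0) % 12 ≠ (a1 + b2) % 12 ∧
  (a1 + b0) % 12 ≠ (a2 + b3) % 12 ∧
  (a1 + b0) % 12 ≠ (a3 + b3) % 12 ∧
  (a1 + b0) % 12 ≠ (a2 + b4) % 12 ∧
  (a1 + b0) % 12 ≠ (a3 + b4) % 12 ∧
  (a1 + b0) % 12 ≠ (a2 + b5) % 12 ∧
  (a1 + b0) % 12 ≠ (a3 + b5) % 12 ∧
  b1 % 12 ≠ (a1 + b1) % 12 ∧
  b1 % 12 ≠ b2 % 12 ∧
  b1 % 12 ≠ (a1 + b2) % 12 ∧
  b1 % 12 ≠ (a2 + b3) % 12 ∧
  b1 % 12 ≠ (a3 + b3) % 12 ∧
  b1 % 12 ≠ (a2 + b4) % 12 ∧
  b1 % 12 ≠ (a3 + b4) % 12 ∧
  b1 % 12 ≠ (a2 + b5) % 12 ∧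
  b1 % 12 ≠ (a3 + b5) % 12 ∧
  (a1 + b1) % 12 ≠ b2 % 12 ∧
  (a1 + b1) % 12 ≠ (a1 + b2) % 12 ∧
  (a1 + b1) % 12 ≠ (a2 + b3) % 12 ∧
  (a1 + b1) % 12 ≠ (a3 + b3) % 12 ∧
  (a1 + b1) % 12 ≠ (a2 + b4) % 12 ∧
  (a1 + b1) % 12 ≠ (a3 + b4) % 12 ∧
  (a1 + b1) % 12 ≠ (a2 + b5) % 12 ∧
  (a1 + b1) % 12 ≠ (a3 + b5) % 12 ∧
  b2 % 12 ≠ (a1 + b2) % 12 ∧
  b2 % 12 ≠ (a2 + b3) % 12 ∧
  b2 % 12 ≠ (a3 + b3) % 12 ∧
  b2 % 12 ≠ (a2 + b4) % 12 ∧
  b2 % 12 ≠ (a3 + b4) % 12 ∧
  b2 % 12 ≠ (a2 + b5) % 12 ∧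
  b2 % 12 ≠ (a3 + b5) % 12 ∧
  (a1 + b2) % 12 ≠ (a2 + b3) % 12 ∧
  (a1 + b2) % 12 ≠ (a3 + b3) % 12 ∧
  (a1 + b2) % 12 ≠ (a2 + b4) % 12 ∧
  (a1 + b2) % 12 ≠ (a3 + b4) % 12 ∧
  (a1 + b2) % 12 ≠ (a2 + b5) % 12 ∧
  (a1 + b2) % 12 ≠ (a3 + b5) % 12 ∧
  (a2 + b3) % 12 ≠ (a3 + b3) % 12 ∧
  (a2 + b3) % 12 ≠ (a2 + b4) % 12 ∧
  (a2 + b3) % 12 ≠ (a3 + b4) % 12 ∧
  (a2 + b3) % 12 ≠ (a2 + b5) % 12 ∧
  (a2 + b3) % 12 ≠ (a3 + b5) % 12 ∧
  (a3 + b3) % 12 ≠ (a2 + b4) % 12 ∧
  (a3 + b3) % 12 ≠ (a3 + b4) % 12 ∧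
  (a3 + b3) % 12 ≠ (a2 + b5) % 12 ∧
  (a3 + b3) % 12 ≠ (a3 + b5) % 12 ∧
  (a2 + b4) % 12 ≠ (a3 + b4) % 12 ∧
  (a2 + b4) % 12 ≠ (a2 + b5) % 12 ∧
  (a2 + b4) % 12 ≠ (a3 + b5) % 12 ∧
  (a3 + b4) % 12 ≠ (a2 + b5) % 12 ∧
  (a3 + b4) % 12 ≠ (a3 + b5) % 12 ∧
  (a2 + b5) % 12 ≠ (a3 + b5) % 12

lemma sw1 {a1 a2 a3 b0 b1 b2 b3 b4 b5 : ℕ} (h : H a1 a2 a3 b0 b1 b2 b3 b4 b5) : H a1 a2 a3 b1 b0 b2 b3 b4 b5 := by
  obtain ⟨h0, h1, h2, h3, h4, h5, h6, h7, h8, h9, h10, h11, h12, h13, h14, h15, h16, h17, h18, h19, h20, h21, h22, h23, h24, h25, h26, h27, h28, h29, h30, h31, h32, h33, h34, h35, h36, h37, h38, h39, h40, h41, h42, h43, h44, h45, h46, h47, h48, h49, h50, h51, h52, h53, h54, h55, h56, h57, h58, h59, h60, h61, h62, h63, h64, h65, h66, h67, h68, h69, h70, h71, h72, h73, h74, h75, h76, h77, h78, h79, h80, h81, h82, h83, h84, h85, h86, h87, h88, h89, h90, h91, h92, h93, h94, h95, h96, h97, h98, h99, h100, h101, h102, h103, h104, h105, h106, h107, h108, h109, h110,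 h111, h112, h113, h114, h115, h116, h117, h118, h119⟩ := h
  exact ⟨h0, h1, h2, h4, h3, h5, h6, h7, h8, h9, h10, h11, h13, h12, h14, h15, h16, h17, h18, h19, h21, h20, h22, h23, h24, h25, h26, h28, h27, h29, h30, h31, h32, h34, h33, h35, h36, h37, h38, h39.symm, h44, h45, h46, h47, h40, h41, h42, h43, h48, h49, h50, h51, h52, h53, h75, h55.symm, h65.symm, h76, h77, h78, h79, h80, h81, h82, h83, h56.symm, h66.symm, h84, h85, h86, h87, h88, h89, h90, h91, h54, h57, h58, h59, h60, h61, h62, h63, h64, h67, h68, h69, h70, h71, h72, h73, h74, h92, h93, h94, h95, h96, h97, h98, h99, h100, h101, h102, h103, h104, h105, h106, h107, h108, h109, h110, h111, h112, h113, h114, h115, h116, h117, h118, h119⟩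

lemma sw2 {a1 a2 a3 b0 b1 b2 b3 b4 b5 : ℕ} (h : H a1 a2 a3 b0 b1 b2 b3 b4 b5) : H a1 a2 a3 b0 b2 b1 b3 b4 b5 := by
  obtain ⟨h0, h1, h2, h3, h4, h5, h6, h7, h8, h9, h10, h11, h12, h13, h14, h15, h16, h17, h18, h19, h20, h21, h22, h23, h24, h25, h26, h27, h28, h29, h30, h31, h32, h33, h34, h35, h36, h37, h38, h39, h40, h41, h42, h43, h44, h45, h46, h47, h48, h49, h50, h51, h52, h53, h54, h55, h56, h57, h58, h59, h60, h61, h62, h63, h64, h65, h66, h67, h68, h69, h70, h71, h72, h73, h74, h75, h76, h77, h78, h79, h80, h81, h82, h83, h84, h85, h86, h87, h88, h89, h90, h91, h92, h93, h94, h95, h96, h97, h98, h99, h100, h101, h102, h103, h104, h105, h106, h107, h108, h109, h110, h111, h112, h113, h114, h115, h116, h117, h118, h119⟩ := h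
  exact ⟨h0, h1, h2, h3, h5, h4, h6, h7, h8, h9, h10, h11, h12, h14, h13, h15, h16, h17, h18, h19, h20, h22, h21, h23, h24, h25, h26, h27, h29, h28, h30, h31, h32, h33, h35, h34, h36, h37, h38, h40, h39, h41, h42, h43, h44.symm, h48, h49, h50, h45, h46, h47, h51, h52, h53, h54, h57, h58, h55, h56, h59, h60, h61, h62, h63, h64, h67, h68, h65, h66, h69, h70, h71, h72, h73, h74, h92, h76.symm, h84.symm, h93, h94, h95, h96, h97, h98, h77.symm, h85.symm, h99, h100, h101, h102, h103, h104, h75, h78, h79, h80, h81, h82, h83, h86, h87, h88, h89, h90, h91, h105, h106, h107, h108, h109, h110, h111, h112, h113, h114, h115, h116, h117, h118, h119⟩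

lemma sw3 {a1 a2 a3 b0 b1 b2 b3 b4 b5 : ℕ} (h : H a1 a2 a3 b0 b1 b2 b3 b4 b5) : H a1 a2 a3 b0 b1 b2 b4 b3 b5 := by
  obtain ⟨h0, h1, h2, h3, h4, h5, h6, h7, h8, h9, h10, h11, h12, h13, h14, h15, h16, h17, h18, h19, h20, h21, h22, h23, h24, h25, h26, h27, h28, h29, h30, h31, h32, h33, h34, h35, h36, h37, h38, h39, h40, h41, h42, h43, h44, h45, h46, h47, h48, h49, h50, h51, h52, h53, h54, h55, h56, h57, h58, h59, h60, h61, h62, h63, h64, h65, h66, h67, h68, h69, h70, h71, h72, h73, h74, h75, h76, h77, h78, h79, h80, h81, h82, h83, h84, h85, h86, h87, h88, h89, h90, h91, h92, h93, h94, h95, h96, h97, h98, h99, h100, h101, h102, h103, h104, h105, h106, h107, h108, h109, h110, h111, h112, h113, h114, h115, h116, h117, h118, h119⟩ := h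
  exact ⟨h0, h1, h2, h3, h4, h5, h7, h6, h8, h9, h10, h11, h12, h13, h14, h16, h15, h17, h18, h19, h20, h21, h22, h24, h23, h25, h26, h27, h28, h29, h31, h30, h32, h33, h34, h35, h37, h36, h38, h39, h40, h42, h41, h43, h44, h46, h45, h47, h49, h48, h50, h51.symm, h53, h52, h54, h55, h56, h57, h58, h61, h62, h59, h60, h63, h64, h65, h66, h67, h68, h71, h72, h69, h70, h73, h74, h75, h76, h77, h80, h81, h78, h79, h82, h83, h84, h85, h88, h89, h86, h87, h90, h91, h92, h95, h96, h93, h94, h97, h98, h101, h102, h99, h100, h103, h104, h114, h106.symm, h110.symm, h115, h116, h107.symm, h111.symm, h117, h118, h105, h108, h109, h112, h113, h119⟩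

lemma sw4 {a1 a2 a3 b0 b1 b2 b3 b4 b5 : ℕ} (h : H a1 a2 a3 b0 b1 b2 b3 b4 b5) : H a1 a2 a3 b0 b1 b2 b3 b5 b4 := by
  obtain ⟨h0, h1, h2, h3, h4, h5, h6, h7, h8, h9, h10, h11, h12, h13, h14, h15, h16, h17, h18, h19, h20, h21, h22, h23, h24, h25, h26, h27, h28, h29, h30, h31, h32, h33, h34, h35, h36, h37, h38, h39, h40, h41, h42, h43, h44, h45, h46, h47, h48, h49, h50, h51, h52, h53, h54, h55, h56, h57, h58, h59, h60, h61, h62, h63, h64, h65, h66, h67, h68, h69, h70, h71, h72, h73, h74, h75, h76, h77, h78, h79, h80, h81, h82, h83, h84, h85, h86, h87, h88, h89, h90, h91, h92, h93, h94, h95, h96, h97, h98, h99, h100, h101, h102, h103, h104, h105, h106, h107, h108, h109, h110, h111, h112, h113, h114, h115, h116, h117, h118, h119⟩ := h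
  exact ⟨h0, h1, h2, h3, h4, h5, h6, h8, h7, h9, h10, h11, h12, h13, h14, h15, h17, h16, h18, h19, h20, h21, h22, h23, h25, h24, h26, h27, h28, h29, h30, h32, h31, h33, h34, h35, h36, h38, h37, h39, h40, h41, h43, h42, h44, h45, h47, h46, h48, h50, h49, h52, h51, h53.symm, h54, h55, h56, h57, h58, h59, h60, h63, h64, h61, h62, h65, h66, h67, h68, h69, h70, h73, h74, h71, h72, h75, h76, h77, h78, h79, h82, h83, h80, h81, h84, h85, h86, h87, h90, h91, h88, h89, h92, h93, h94, h97, h98, h95, h96, h99, h100, h103, h104, h101, h102, h105, h108, h109, h106, h107, h112, h113, h110, h111, h119, h115.symm, h117.symm, h116.symm, h118.symm, h114⟩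

lemma sw5 {a1 a2 a3 b0 b1 b2 b3 b4 b5 : ℕ} (h : H a1 a2 a3 b0 b1 b2 b3 b4 b5) : H a1 a3 a2 b0 b1 b2 b3 b4 b5 := by
  obtain ⟨h0, h1, h2, h3, h4, h5, h6, h7, h8, h9, h10, h11, h12, h13, h14, h15, h16, h17, h18, h19, h20, h21, h22, h23, h24, h25, h26, h27, h28, h29, h30, h31, h32, h33, h34, h35, h36, h37, h38, h39, h40, h41, h42, h43, h44, h45, h46, h47, h48, h49, h50, h51, h52, h53, h54, h55, h56, h57, h58, h59, h60, h61, h62, h63, h64, h65, h66, h67, h68, h69, h70, h71, h72, h73, h74, h75, h76, h77, h78, h79, h80, h81, h82, h83, h84, h85, h86, h87, h88, h89, h90, h91, h92, h93, h94, h95, h96, h97, h98, h99, h100, h101, h102, h103, h104, h105, h106, h107, h108, h109, h110, h111, h112, h113, h114, h115, h116, h117, h118, h119⟩ := h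
  exact ⟨h0, h2, h1, h3, h4, h5, h6, h7, h8, h9, h11, h10, h12, h13, h14, h15, h16, h17, h19, h18, h20, h21, h22, h23, h24, h25, h26.symm, h33, h34, h35, h36, h37, h38, h27, h28, h29, h30, h31, h32, h39, h40, h41, h42, h43, h44, h45, h46, h47, h48, h49, h50, h51, h52, h53, h54, h55, h56, h57, h58, h60, h59, h62, h61, h64, h63, h65, h66, h67, h68, h70, h69, h72, h71, h74, h73, h75, h76, h77, h79, h78, h81, h80, h83, h82, h84, h85, h87, h86, h89, h88, h91, h90, h92, h94, h93, h96, h95, h98, h97, h100, h99, h102, h101, h104, h103, h105.symm, h111, h110, h113, h112, h107, h106, h109, h108, h114.symm, h118, h117, h116, h115, h119.symm⟩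

def allLt : ℕ → (ℕ → Bool) → Bool
  | 0, _ => true
  | n + 1, p => p n && allLt n p

lemma allLt_spec {n : ℕ} {p : ℕ → Bool} (h : allLt n p = true) (x : ℕ) (hx : x < n) : p x = true := by
  induction n with
  | zero => omega
  | succ n ih =>
    simp only [allLt, Bool.and_eq_true] at h
    rcases Nat.lt_succ_iff_lt_or_eq.1 hx with c | rfl
    · exact ih h.2 c
    · exact h.1

lemma orl {x y : ℕ} {b : Bool} (h : (Nat.beq x y || b) = true) (n : x ≠ y) : b = true := by
  rcases Bool.or_eq_true_iff.1 h with h | h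
  · exact absurd (Nat.eq_of_beq_eq_true h) n
  · exact h

lemma orb {x y : ℕ} {b : Bool} (h : (Nat.ble x y || b) = true) (n : y < x) : b = true := by
  rcases Bool.or_eq_true_iff.1 h with h | h
  · exact absurd (Nat.le_of_ble_eq_true h) (by omega)
  · exact h

lemma chk : allLt 12 (fun a1 =>
    (Nat.beq 0 a1 || allLt 12 (fun b0 =>
    (Nat.beq 0 b0 || (Nat.beq a1 b0 || allLt 12 (fun b1 =>
    (Nat.ble b1 b0 || (Nat.beq 0 b1 || (Nat.beq a1 b1 || (Nat.beq b0 b1 || (Nat.beq ((a1 + b0) % 12) (b1 % 12) || (Nat.beq (b0 % 12) ((a1 + b1) % 12) || allLt 12 (fun b2 =>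
    (Nat.ble b2 b1 || (Nat.beq 0 b2 || (Nat.beq a1 b2 || (Nat.beq b0 b2 || (Nat.beq b1 b2 || (Nat.beq ((a1 + b0) % 12) (b2 % 12) || (Nat.beq ((a1 + b1) % 12) (b2 % 12) || (Nat.beq (b0 % 12) ((a1 + b2) % 12) || (Nat.beq (b1 % 12) ((a1 + b2) % 12) || allLt 12 (fun a2 =>
    (Nat.beq 0 a2 || (Nat.beq a1 a2 || (Nat.beq b0 a2 || (Nat.beq b1 a2 || (Nat.beq b2 a2 || allLt 12 (fun b3 =>
    (Nat.beq 0 b3 || (Nat.beq a1 b3 || (Nat.beq b0 b3 || (Nat.beq b1 b3 || (Nat.beq b2 b3 || (Nat.beq a2 b3 || (Nat.beq (b0 % 12) ((a2 + b3) % 12) || (Nat.beq ((a1 + b0) % 12) ((a2 + b3) % 12) || (Nat.beq (b1 % 12) ((a2 + b3) % 12) || (Nat.beq ((a1 + b1) % 12) ((a2 + b3) % 12) || (Nat.beq (b2 % 12) ((a2 + b3) % 12) || (Nat.beq ((a1 + b2) % 12) ((a2 + b3) % 12) || allLt 12 (fun a3 =>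
    (Nat.ble a3 a2 || (Nat.beq 0 a3 || (Nat.beq a1 a3 || (Nat.beq b0 a3 || (Nat.beq b1 a3 || (Nat.beq b2 a3 || (Nat.beq a2 a3 || (Nat.beq b3 a3 || (Nat.beq (b0 % 12) ((a3 + b3) % 12) || (Nat.beq ((a1 + b0) % 12) ((a3 + b3) % 12) || (Nat.beq (b1 % 12) ((a3 + b3) % 12) || (Nat.beq ((a1 + b1) % 12) ((a3 + b3) % 12) || (Nat.beq (b2 % 12) ((a3 + b3) % 12) || (Nat.beq ((a1 + b2) % 12) ((a3 + b3) % 12) || allLt 12 (fun b4 =>
    (Nat.ble b4 b3 || (Nat.beq 0 b4 || (Nat.beq a1 b4 || (Nat.beq b0 b4 || (Nat.beq b1 b4 || (Nat.beq b2 b4 || (Nat.beq a2 b4 || (Nat.beq b3 b4 || (Nat.beq a3 b4 || (Nat.beq (b0 % 12) ((a2 + b4) % 12) || (Nat.beq ((a1 + b0) % 12) ((a2 + b4) % 12) || (Nat.beq (b1 % 12) ((a2 + b4) % 12) || (Nat.beq ((a1 + b1) % 12) ((a2 + b4) % 12) || (Nat.beq (b2 % 12) ((a2 + b4) % 12) || (Nat.beq ((a1 + b2) % 12) ((a2 + b4) % 12) || (Nat.beq ((a3 + b3) % 12) ((a2 + b4) % 12) || (Nat.beq (b0 % 12) ((a3 + b4) % 12) || (Nat.beq ((a1 + b0) % 12) ((a3 + b4)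 % 12) || (Nat.beq (b1 % 12) ((a3 + b4) % 12) || (Nat.beq ((a1 + b1) % 12) ((a3 + b4) % 12) || (Nat.beq (b2 % 12) ((a3 + b4) % 12) || (Nat.beq ((a1 + b2) % 12) ((a3 + b4) % 12) || (Nat.beq ((a2 + b3) % 12) ((a3 + b4) % 12) || allLt 12 (fun b5 =>
    (Nat.ble b5 b4 || (Nat.beq 0 b5 || (Nat.beq a1 b5 || (Nat.beq b0 b5 || (Nat.beq b1 b5 || (Nat.beq b2 b5 || (Nat.beq a2 b5 || (Nat.beq b3 b5 || (Nat.beq a3 b5 || (Nat.beq b4 b5 || (Nat.beq (b0 % 12) ((a2 + b5) % 12) || (Nat.beq ((a1 + b0) % 12) ((a2 + b5) % 12) || (Nat.beq (b1 % 12) ((a2 + b5) % 12) || (Nat.beq ((a1 + b1) % 12) ((a2 + b5) % 12) || (Nat.beq (b2 % 12) ((a2 + b5) % 12) || (Nat.beq ((a1 + b2) % 12) ((a2 + b5) % 12) || (Nat.beq ((a3 + b3) % 12) ((a2 + b5) % 12) || (Nat.beq ((a3 + b4) % 12) ((a2 + b5) % 12) || (Nat.beq (b0 % 12) ((a3 + b5) % 12) || (Nat.beq ((a1 + b0) % 12) ((a3 + b5) % 12) || (Nat.beq (b1 % 12) ((a3 + b5) % 12) || (Nat.beq ((a1 + b1) % 12) ((a3 + b5) % 12) || (Nat.beq (b2 % 12)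 ((a3 + b5) % 12) || (Nat.beq ((a1 + b2) % 12) ((a3 + b5) % 12) || (Nat.beq ((a2 + b3) % 12) ((a3 + b5) % 12) || (Nat.beq ((a2 + b4) % 12) ((a3 + b5) % 12) || false))))))))))))))))))))))))))))))))))))))))))))))))))))))))))))))))))))))))))))))))))))))))))))))))))))))))))) = true := by
  decide +kernel

lemma core {a1 a2 a3 b0 b1 b2 b3 b4 b5 : ℕ} (hh : H a1 a2 a3 b0 b1 b2 b3 b4 b5) (ob1 : b0 < b1) (ob2 : b1 < b2) (ob4 : b3 < b4) (ob5 : b4 < b5)
    (oa3 : a2 < a3) : False := by
  obtain ⟨h0, h1, h2, h3, h4, h5, h6, h7, h8, h9, h10, h11, h12, h13, h14, h15, h16, h17, h18, h19, h20, h21, h22, h23, h24, h25, h26, h27, h28, h29, h30, h31, h32, h33, h34, h35, h36, h37, h38, h39, h40, h41, h42, h43, h44, h45, h46, h47, h48, h49, h50, h51, h52, h53, h54, h55, h56, h57, h58, h59, h60, h61, h62, h63, h64, h65, h66, h67, h68, h69, h70, h71, h72, h73, h74, h75, h76, h77, h78, h79, h80, h81, h82, h83, h84, h85, h86, h87, h88, h89, h90, h91, h92, h93, h94, h95, h96,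 h97, h98, h99, h100, h101, h102, h103, h104, h105, h106, h107, h108, h109, h110, h111, h112, h113, h114, h115, h116, h117, h118, h119⟩ := hh
  have h := chk
  have h := allLt_spec h a1 h0
  have h := orl h h9
  have h := allLt_spec h b0 h3
  have h := orl h h12
  have h := orl h h20
  have h := allLt_spec h b1 h4
  have h := orb h ob1
  have h := orl h h13
  have h := orl h h21
  have h := orl h h39
  have h := orl h h65
  have h := orl h h56
  have h := allLt_spec h b2 h5
  have h := orb h ob2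
  have h := orl h h14
  have h := orl h h22
  have h := orl h h40
  have h := orl h h44
  have h := orl h h67
  have h := orl h h84
  have h := orl h h58
  have h := orl h h77
  have h := allLt_spec h a2 h1
  have h := orl h h10
  have h := orl h h18
  have h := orl h h27.symm
  have h := orl h h28.symm
  have h := orl h h29.symm
  have h := allLt_spec h b3 h6
  have h := orl h h15
  have h := orl h h23
  have h := orl h h41
  have h := orl h h45
  have h := orl h h48
  have h := orl h h30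
  have h := orl h h59
  have h := orl h h69
  have h := orl h h78
  have h := orl h h86
  have h := orl h h93
  have h := orl h h99
  have h := allLt_spec h a3 h2
  have h := orb h oa3
  have h := orl h h11
  have h := orl h h19
  have h := orl h h33.symm
  have h := orl h h34.symm
  have h := orl h h35.symm
  have h := orl h h26
  have h := orl h h36.symm
  have h := orl h h60
  have h := orl h h70
  have h := orl h h79
  have h := orl h h87
  have h := orl h h94
  have h := orl h h100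
  have h := allLt_spec h b4 h7
  have h := orb h ob4
  have h := orl h h16
  have h := orl h h24
  have h := orl h h42
  have h := orl h h46
  have h := orl h h49
  have h := orl h h31
  have h := orl h h51
  have h := orl h h37
  have h := orl h h61
  have h := orl h h71
  have h := orl h h80
  have h := orl h h88
  have h := orl h h95
  have h := orl h h101
  have h := orl h h110
  have h := orl h h62
  have h := orl h h72
  have h := orl h h81
  have h := orl h h89
  have h := orl h h96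
  have h := orl h h102
  have h := orl h h107
  have h := allLt_spec h b5 h8
  have h := orb h ob5
  have h := orl h h17
  have h := orl h h25
  have h := orl h h43
  have h := orl h h47
  have h := orl h h50
  have h := orl h h32
  have h := orl h h52
  have h := orl h h38
  have h := orl h h53
  have h := orl h h63
  have h := orl h h73
  have h := orl h h82
  have h := orl h h90
  have h := orl h h97
  have h := orl h h103
  have h := orl h h112
  have h := orl h h117
  have h := orl h h64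
  have h := orl h h74
  have h := orl h h83
  have h := orl h h91
  have h := orl h h98
  have h := orl h h104
  have h := orl h h109
  have h := orl h h116
  exact Bool.false_ne_true h

lemma sort3 (P : ℕ → ℕ → ℕ → Prop) (s1 : ∀ x y z, P x y z → P y x z) (s2 : ∀ x y z, P x y z → P x z y)
    (h : ∀ x y z, x < y → y < z → ¬ P x y z) (x y z : ℕ) (n1 : x ≠ y) (n2 : x ≠ z) (n3 : y ≠ z) :
    ¬ P x y z := by
  intro p
  have : (x < y ∧ y < z) ∨ (y < x ∧ x < z) ∨ (x < z ∧ z < y) ∨ (y < z ∧ z < x) ∨ (z < x ∧ x < y) ∨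
    (z < y ∧ y < x) := by omega
  rcases this with c | c | c | c | c | c
  · exact h _ _ _ c.1 c.2 p
  · exact h _ _ _ c.1 c.2 (s1 _ _ _ p)
  · exact h _ _ _ c.1 c.2 (s2 _ _ _ p)
  · exact h _ _ _ c.1 c.2 (s2 _ _ _ (s1 _ _ _ p))
  · exact h _ _ _ c.1 c.2 (s1 _ _ _ (s2 _ _ _ p))
  · exact h _ _ _ c.1 c.2 (s1 _ _ _ (s2 _ _ _ (s1 _ _ _ p)))

lemma core2 {a1 a2 a3 b0 b1 b2 b3 b4 b5 : ℕ} (hh : H a1 a2 a3 b0 b1 b2 b3 b4 b5) : False := by
  have hh' := hh
  obtain ⟨h0, h1, h2, h3, h4, h5, h6, h7, h8, h9, h10, h11, h12, h13, h14, h15, h16, h17, h18, h19, h20, h21, h22, h23, h24, h25, h26, h27, h28, h29, h30, h31, h32, h33, h34, h35, h36, h37, h38, h39, h40, h41, h42, h43, h44, h45, h46, h47, h48, h49, h50, h51, h52, h53, h54, h55, h56, h57, h58, h59, h60, h61, h62, h63, h64, h65, h66, h67, h68, h69, h70, h71, h72, h73, h74, h75, h76, h77, h78, h79, h80, h81, h82, h83, h84, h85, h86, h87, h88, h89, h90, h91, h92, h93, h94, h95, h96, h97, h98, h99, h100, h101,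 h102, h103, h104, h105, h106, h107, h108, h109, h110, h111, h112, h113, h114, h115, h116, h117, h118, h119⟩ := hh'
  refine sort3 (fun b0 b1 b2 => H a1 a2 a3 b0 b1 b2 b3 b4 b5) (fun _ _ _ => sw1) (fun _ _ _ => sw2) (fun b0 b1 b2 o1 o2 hh => ?_)
    b0 b1 b2 h39 h40 h44 hh
  refine sort3 (fun b3 b4 b5 => H a1 a2 a3 b0 b1 b2 b3 b4 b5) (fun _ _ _ => sw3) (fun _ _ _ => sw4) (fun b3 b4 b5 o3 o4 hh => ?_)
    b3 b4 b5 h51 h52 h53 hh
  rcases Nat.lt_or_gt_of_ne h26 with c | c
  · exact core hh o1 o2 o3 o4 c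
  · exact core (sw5 hh) o1 o2 o3 o4 c

lemma sh0 {a y : ℕ} (ha : a < 12) (hy : y < 12) (h : a ≠ y) : 0 ≠ (y + 12 - a) % 12 := by omega
lemma sh1 {a x y : ℕ} (ha : a < 12) (hx : x < 12) (hy : y < 12) (h : x ≠ y) :
    (x + 12 - a) % 12 ≠ (y + 12 - a) % 12 := by omega
lemma ss0 {a c y z w : ℕ} (ha : a < 12) (h1 : c ≤ a + y ∧ a + y < c + 2 * 2 * 3)
    (h2 : c ≤ z + w ∧ z + w < c + 2 * 2 * 3) (h : a + y ≠ z + w) :
    (y + 12 - a) % 12 % 12 ≠ ((z + 12 - a) % 12 + (w + 12 - a) % 12) % 12 := by omega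
lemma ss2 {a c y w : ℕ} (ha : a < 12) (h1 : c ≤ a + y ∧ a + y < c + 2 * 2 * 3)
    (h2 : c ≤ a + w ∧ a + w < c + 2 * 2 * 3) (h : a + y ≠ a + w) :
    (y + 12 - a) % 12 % 12 ≠ (w + 12 - a) % 12 % 12 := by omega
lemma ss1 {a c x y z w : ℕ} (ha : a < 12) (h1 : c ≤ x + y ∧ x + y < c + 2 * 2 * 3)
    (h2 : c ≤ z + w ∧ z + w < c + 2 * 2 * 3) (h : x + y ≠ z + w) :
    ((x + 12 - a) % 12 + (y + 12 - a) % 12) % 12 ≠ ((z + 12 - a) % 12 + (w + 12 - a) % 12) % 12 := by
  omega

lemma neg_223 : ¬ Lab 2 2 3 (2 * 2 * 3) := by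
  rintro ⟨A, B, c, hc, h1, h2, h3, h4, h5, h6, h7⟩
  have ha : A 0 0 < 12 := (h1 0 (by decide) 0 (by decide))
  exact core2 (a1 := (A 0 1 + 12 - A 0 0) % 12) (a2 := (A 1 0 + 12 - A 0 0) % 12) (a3 := (A 1 1 + 12 - A 0 0) % 12) (b0 := (B 0 0 + 12 - A 0 0) % 12) (b1 := (B 0 1 + 12 - A 0 0) % 12) (b2 := (B 0 2 + 12 - A 0 0) % 12) (b3 := (B 1 0 + 12 - A 0 0) % 12) (b4 := (B 1 1 + 12 - A 0 0) % 12) (b5 := (B 1 2 + 12 - A 0 0) % 12)
    ⟨Nat.mod_lt _ (by decide),
    Nat.mod_lt _ (by decide),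
    Nat.mod_lt _ (by decide),
    Nat.mod_lt _ (by decide),
    Nat.mod_lt _ (by decide),
    Nat.mod_lt _ (by decide),
    Nat.mod_lt _ (by decide),
    Nat.mod_lt _ (by decide),
    Nat.mod_lt _ (by decide),
    sh0 ha (h1 0 (by decide) 1 (by decide)) (fun e => absurd (h3 0 (by decide) 0 (by decide) 0 (by decide) 1 (by decide) e) (by decide)),
    sh0 ha (h1 1 (by decide) 0 (by decide)) (fun e => absurd (h3 0 (by decide) 0 (by decide) 1 (by decide) 0 (by decide) e) (by decide)),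
    sh0 ha (h1 1 (by decide) 1 (by decide)) (fun e => absurd (h3 0 (by decide) 0 (by decide) 1 (by decide) 1 (by decide) e) (by decide)),
    sh0 ha (h2 0 (by decide) 0 (by decide)) (h5 0 (by decide) 0 (by decide) 0 (by decide) 0 (by decide)),
    sh0 ha (h2 0 (by decide) 1 (by decide)) (h5 0 (by decide) 0 (by decide) 0 (by decide) 1 (by decide)),
    sh0 ha (h2 0 (by decide) 2 (by decide)) (h5 0 (by decide) 0 (by decide) 0 (by decide) 2 (by decide)),
    sh0 ha (h2 1 (by decide) 0 (by decide)) (h5 0 (by decide) 0 (by decide) 1 (by decide) 0 (by decide)),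
    sh0 ha (h2 1 (by decide) 1 (by decide)) (h5 0 (by decide) 0 (by decide) 1 (by decide) 1 (by decide)),
    sh0 ha (h2 1 (by decide) 2 (by decide)) (h5 0 (by decide) 0 (by decide) 1 (by decide) 2 (by decide)),
    sh1 ha (h1 0 (by decide) 1 (by decide)) (h1 1 (by decide) 0 (by decide)) (fun e => absurd (h3 0 (by decide) 1 (by decide) 1 (by decide) 0 (by decide) e) (by decide)),
    sh1 ha (h1 0 (by decide) 1 (by decide)) (h1 1 (by decide) 1 (by decide)) (fun e => absurd (h3 0 (by decide) 1 (by decide) 1 (by decide) 1 (by decide) e) (by decide)),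
    sh1 ha (h1 0 (by decide) 1 (by decide)) (h2 0 (by decide) 0 (by decide)) (h5 0 (by decide) 1 (by decide) 0 (by decide) 0 (by decide)),
    sh1 ha (h1 0 (by decide) 1 (by decide)) (h2 0 (by decide) 1 (by decide)) (h5 0 (by decide) 1 (by decide) 0 (by decide) 1 (by decide)),
    sh1 ha (h1 0 (by decide) 1 (by decide)) (h2 0 (by decide) 2 (by decide)) (h5 0 (by decide) 1 (by decide) 0 (by decide) 2 (by decide)),
    sh1 ha (h1 0 (by decide) 1 (by decide)) (h2 1 (by decide) 0 (by decide)) (h5 0 (by decide) 1 (by decide) 1 (by decide) 0 (by decide)),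
    sh1 ha (h1 0 (by decide) 1 (by decide)) (h2 1 (by decide) 1 (by decide)) (h5 0 (by decide) 1 (by decide) 1 (by decide) 1 (by decide)),
    sh1 ha (h1 0 (by decide) 1 (by decide)) (h2 1 (by decide) 2 (by decide)) (h5 0 (by decide) 1 (by decide) 1 (by decide) 2 (by decide)),
    sh1 ha (h1 1 (by decide) 0 (by decide)) (h1 1 (by decide) 1 (by decide)) (fun e => absurd (h3 1 (by decide) 0 (by decide) 1 (by decide) 1 (by decide) e) (by decide)),
    sh1 ha (h1 1 (by decide) 0 (by decide)) (h2 0 (by decide) 0 (by decide)) (h5 1 (by decide) 0 (by decide) 0 (by decide) 0 (by decide)),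
    sh1 ha (h1 1 (by decide) 0 (by decide)) (h2 0 (by decide) 1 (by decide)) (h5 1 (by decide) 0 (by decide) 0 (by decide) 1 (by decide)),
    sh1 ha (h1 1 (by decide) 0 (by decide)) (h2 0 (by decide) 2 (by decide)) (h5 1 (by decide) 0 (by decide) 0 (by decide) 2 (by decide)),
    sh1 ha (h1 1 (by decide) 0 (by decide)) (h2 1 (by decide) 0 (by decide)) (h5 1 (by decide) 0 (by decide) 1 (by decide) 0 (by decide)),
    sh1 ha (h1 1 (by decide) 0 (by decide)) (h2 1 (by decide) 1 (by decide)) (h5 1 (by decide) 0 (by decide) 1 (by decide) 1 (by decide)),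
    sh1 ha (h1 1 (by decide) 0 (by decide)) (h2 1 (by decide) 2 (by decide)) (h5 1 (by decide) 0 (by decide) 1 (by decide) 2 (by decide)),
    sh1 ha (h1 1 (by decide) 1 (by decide)) (h2 0 (by decide) 0 (by decide)) (h5 1 (by decide) 1 (by decide) 0 (by decide) 0 (by decide)),
    sh1 ha (h1 1 (by decide) 1 (by decide)) (h2 0 (by decide) 1 (by decide)) (h5 1 (by decide) 1 (by decide) 0 (by decide) 1 (by decide)),
    sh1 ha (h1 1 (by decide) 1 (by decide)) (h2 0 (by decide) 2 (by decide)) (h5 1 (by decide) 1 (by decide) 0 (by decide) 2 (by decide)),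
    sh1 ha (h1 1 (by decide) 1 (by decide)) (h2 1 (by decide) 0 (by decide)) (h5 1 (by decide) 1 (by decide) 1 (by decide) 0 (by decide)),
    sh1 ha (h1 1 (by decide) 1 (by decide)) (h2 1 (by decide) 1 (by decide)) (h5 1 (by decide) 1 (by decide) 1 (by decide) 1 (by decide)),
    sh1 ha (h1 1 (by decide) 1 (by decide)) (h2 1 (by decide) 2 (by decide)) (h5 1 (by decide) 1 (by decide) 1 (by decide) 2 (by decide)),
    sh1 ha (h2 0 (by decide) 0 (by decide)) (h2 0 (by decide) 1 (by decide)) (fun e => absurd (h4 0 (by decide) 0 (by decide) 0 (by decide) 1 (by decide) e) (by decide)),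
    sh1 ha (h2 0 (by decide) 0 (by decide)) (h2 0 (by decide) 2 (by decide)) (fun e => absurd (h4 0 (by decide) 0 (by decide) 0 (by decide) 2 (by decide) e) (by decide)),
    sh1 ha (h2 0 (by decide) 0 (by decide)) (h2 1 (by decide) 0 (by decide)) (fun e => absurd (h4 0 (by decide) 0 (by decide) 1 (by decide) 0 (by decide) e) (by decide)),
    sh1 ha (h2 0 (by decide) 0 (by decide)) (h2 1 (by decide) 1 (by decide)) (fun e => absurd (h4 0 (by decide) 0 (by decide) 1 (by decide) 1 (by decide) e) (by decide)),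
    sh1 ha (h2 0 (by decide) 0 (by decide)) (h2 1 (by decide) 2 (by decide)) (fun e => absurd (h4 0 (by decide) 0 (by decide) 1 (by decide) 2 (by decide) e) (by decide)),
    sh1 ha (h2 0 (by decide) 1 (by decide)) (h2 0 (by decide) 2 (by decide)) (fun e => absurd (h4 0 (by decide) 1 (by decide) 0 (by decide) 2 (by decide) e) (by decide)),
    sh1 ha (h2 0 (by decide) 1 (by decide)) (h2 1 (by decide) 0 (by decide)) (fun e => absurd (h4 0 (by decide) 1 (by decide) 1 (by decide) 0 (by decide) e) (by decide)),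
    sh1 ha (h2 0 (by decide) 1 (by decide)) (h2 1 (by decide) 1 (by decide)) (fun e => absurd (h4 0 (by decide) 1 (by decide) 1 (by decide) 1 (by decide) e) (by decide)),
    sh1 ha (h2 0 (by decide) 1 (by decide)) (h2 1 (by decide) 2 (by decide)) (fun e => absurd (h4 0 (by decide) 1 (by decide) 1 (by decide) 2 (by decide) e) (by decide)),
    sh1 ha (h2 0 (by decide) 2 (by decide)) (h2 1 (by decide) 0 (by decide)) (fun e => absurd (h4 0 (by decide) 2 (by decide) 1 (by decide) 0 (by decide) e) (by decide)),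
    sh1 ha (h2 0 (by decide) 2 (by decide)) (h2 1 (by decide) 1 (by decide)) (fun e => absurd (h4 0 (by decide) 2 (by decide) 1 (by decide) 1 (by decide) e) (by decide)),
    sh1 ha (h2 0 (by decide) 2 (by decide)) (h2 1 (by decide) 2 (by decide)) (fun e => absurd (h4 0 (by decide) 2 (by decide) 1 (by decide) 2 (by decide) e) (by decide)),
    sh1 ha (h2 1 (by decide) 0 (by decide)) (h2 1 (by decide) 1 (by decide)) (fun e => absurd (h4 1 (by decide) 0 (by decide) 1 (by decide) 1 (by decide) e) (by decide)),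
    sh1 ha (h2 1 (by decide) 0 (by decide)) (h2 1 (by decide) 2 (by decide)) (fun e => absurd (h4 1 (by decide) 0 (by decide) 1 (by decide) 2 (by decide) e) (by decide)),
    sh1 ha (h2 1 (by decide) 1 (by decide)) (h2 1 (by decide) 2 (by decide)) (fun e => absurd (h4 1 (by decide) 1 (by decide) 1 (by decide) 2 (by decide) e) (by decide)),
    ss0 ha (h6 0 (by decide) 0 (by decide) 0 (by decide)) (h6 0 (by decide) 1 (by decide) 0 (by decide)) (fun e => absurd (h7 0 (by decide) 0 (by decide) 0 (by decide) 0 (by decide) 1 (by decide) 0 (by decide) e) (by decide)),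
    ss2 ha (h6 0 (by decide) 0 (by decide) 0 (by decide)) (h6 0 (by decide) 0 (by decide) 1 (by decide)) (fun e => absurd (h7 0 (by decide) 0 (by decide) 0 (by decide) 0 (by decide) 0 (by decide) 1 (by decide) e) (by decide)),
    ss0 ha (h6 0 (by decide) 0 (by decide) 0 (by decide)) (h6 0 (by decide) 1 (by decide) 1 (by decide)) (fun e => absurd (h7 0 (by decide) 0 (by decide) 0 (by decide) 0 (by decide) 1 (by decide) 1 (by decide) e) (by decide)),
    ss2 ha (h6 0 (by decide) 0 (by decide) 0 (by decide)) (h6 0 (by decide) 0 (by decide) 2 (by decide)) (fun e => absurd (h7 0 (by decide) 0 (by decide) 0 (by decide) 0 (by decide) 0 (by decide) 2 (by decide) e) (by decide)),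
    ss0 ha (h6 0 (by decide) 0 (by decide) 0 (by decide)) (h6 0 (by decide) 1 (by decide) 2 (by decide)) (fun e => absurd (h7 0 (by decide) 0 (by decide) 0 (by decide) 0 (by decide) 1 (by decide) 2 (by decide) e) (by decide)),
    ss0 ha (h6 0 (by decide) 0 (by decide) 0 (by decide)) (h6 1 (by decide) 0 (by decide) 0 (by decide)) (fun e => absurd (h7 0 (by decide) 0 (by decide) 0 (by decide) 1 (by decide) 0 (by decide) 0 (by decide) e) (by decide)),
    ss0 ha (h6 0 (by decide) 0 (by decide) 0 (by decide)) (h6 1 (by decide) 1 (by decide) 0 (by decide)) (fun e => absurd (h7 0 (by decide) 0 (by decide) 0 (by decide) 1 (by decide) 1 (by decide) 0 (by decide) e) (by decide)),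
    ss0 ha (h6 0 (by decide) 0 (by decide) 0 (by decide)) (h6 1 (by decide) 0 (by decide) 1 (by decide)) (fun e => absurd (h7 0 (by decide) 0 (by decide) 0 (by decide) 1 (by decide) 0 (by decide) 1 (by decide) e) (by decide)),
    ss0 ha (h6 0 (by decide) 0 (by decide) 0 (by decide)) (h6 1 (by decide) 1 (by decide) 1 (by decide)) (fun e => absurd (h7 0 (by decide) 0 (by decide) 0 (by decide) 1 (by decide) 1 (by decide) 1 (by decide) e) (by decide)),
    ss0 ha (h6 0 (by decide) 0 (by decide) 0 (by decide)) (h6 1 (by decide) 0 (by decide) 2 (by decide)) (fun e => absurd (h7 0 (by decide) 0 (by decide) 0 (by decide) 1 (by decide) 0 (by decide) 2 (by decide) e) (by decide)),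
    ss0 ha (h6 0 (by decide) 0 (by decide) 0 (by decide)) (h6 1 (by decide) 1 (by decide) 2 (by decide)) (fun e => absurd (h7 0 (by decide) 0 (by decide) 0 (by decide) 1 (by decide) 1 (by decide) 2 (by decide) e) (by decide)),
    (ss0 ha (h6 0 (by decide) 0 (by decide) 1 (by decide)) (h6 0 (by decide) 1 (by decide) 0 (by decide)) (fun e => absurd (h7 0 (by decide) 0 (by decide) 1 (by decide) 0 (by decide) 1 (by decide) 0 (by decide) e) (by decide))).symm,
    ss1 ha (h6 0 (by decide) 1 (by decide) 0 (by decide)) (h6 0 (by decide) 1 (by decide) 1 (by decide)) (fun e => absurd (h7 0 (by decide) 1 (by decide) 0 (by decide) 0 (by decide) 1 (by decide) 1 (by decide) e) (by decide)),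
    (ss0 ha (h6 0 (by decide) 0 (by decide) 2 (by decide)) (h6 0 (by decide) 1 (by decide) 0 (by decide)) (fun e => absurd (h7 0 (by decide) 0 (by decide) 2 (by decide) 0 (by decide) 1 (by decide) 0 (by decide) e) (by decide))).symm,
    ss1 ha (h6 0 (by decide) 1 (by decide) 0 (by decide)) (h6 0 (by decide) 1 (by decide) 2 (by decide)) (fun e => absurd (h7 0 (by decide) 1 (by decide) 0 (by decide) 0 (by decide) 1 (by decide) 2 (by decide) e) (by decide)),
    ss1 ha (h6 0 (by decide) 1 (by decide) 0 (by decide)) (h6 1 (by decide) 0 (by decide) 0 (by decide)) (fun e => absurd (h7 0 (by decide) 1 (by decide) 0 (by decide) 1 (by decide) 0 (by decide) 0 (by decide) e) (by decide)),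
    ss1 ha (h6 0 (by decide) 1 (by decide) 0 (by decide)) (h6 1 (by decide) 1 (by decide) 0 (by decide)) (fun e => absurd (h7 0 (by decide) 1 (by decide) 0 (by decide) 1 (by decide) 1 (by decide) 0 (by decide) e) (by decide)),
    ss1 ha (h6 0 (by decide) 1 (by decide) 0 (by decide)) (h6 1 (by decide) 0 (by decide) 1 (by decide)) (fun e => absurd (h7 0 (by decide) 1 (by decide) 0 (by decide) 1 (by decide) 0 (by decide) 1 (by decide) e) (by decide)),
    ss1 ha (h6 0 (by decide) 1 (by decide) 0 (by decide)) (h6 1 (by decide) 1 (by decide) 1 (by decide)) (fun e => absurd (h7 0 (by decide) 1 (by decide) 0 (by decide) 1 (by decide) 1 (by decide) 1 (by decide) e) (by decide)),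
    ss1 ha (h6 0 (by decide) 1 (by decide) 0 (by decide)) (h6 1 (by decide) 0 (by decide) 2 (by decide)) (fun e => absurd (h7 0 (by decide) 1 (by decide) 0 (by decide) 1 (by decide) 0 (by decide) 2 (by decide) e) (by decide)),
    ss1 ha (h6 0 (by decide) 1 (by decide) 0 (by decide)) (h6 1 (by decide) 1 (by decide) 2 (by decide)) (fun e => absurd (h7 0 (by decide) 1 (by decide) 0 (by decide) 1 (by decide) 1 (by decide) 2 (by decide) e) (by decide)),
    ss0 ha (h6 0 (by decide) 0 (by decide) 1 (by decide)) (h6 0 (by decide) 1 (by decide) 1 (by decide)) (fun e => absurd (h7 0 (by decide) 0 (by decide) 1 (by decide) 0 (by decide) 1 (by decide) 1 (by decide) e) (by decide)),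
    ss2 ha (h6 0 (by decide) 0 (by decide) 1 (by decide)) (h6 0 (by decide) 0 (by decide) 2 (by decide)) (fun e => absurd (h7 0 (by decide) 0 (by decide) 1 (by decide) 0 (by decide) 0 (by decide) 2 (by decide) e) (by decide)),
    ss0 ha (h6 0 (by decide) 0 (by decide) 1 (by decide)) (h6 0 (by decide) 1 (by decide) 2 (by decide)) (fun e => absurd (h7 0 (by decide) 0 (by decide) 1 (by decide) 0 (by decide) 1 (by decide) 2 (by decide) e) (by decide)),
    ss0 ha (h6 0 (by decide) 0 (by decide) 1 (by decide)) (h6 1 (by decide) 0 (by decide) 0 (by decide)) (fun e => absurd (h7 0 (by decide) 0 (by decide) 1 (by decide) 1 (by decide) 0 (by decide) 0 (by decide) e) (by decide)),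
    ss0 ha (h6 0 (by decide) 0 (by decide) 1 (by decide)) (h6 1 (by decide) 1 (by decide) 0 (by decide)) (fun e => absurd (h7 0 (by decide) 0 (by decide) 1 (by decide) 1 (by decide) 1 (by decide) 0 (by decide) e) (by decide)),
    ss0 ha (h6 0 (by decide) 0 (by decide) 1 (by decide)) (h6 1 (by decide) 0 (by decide) 1 (by decide)) (fun e => absurd (h7 0 (by decide) 0 (by decide) 1 (by decide) 1 (by decide) 0 (by decide) 1 (by decide) e) (by decide)),
    ss0 ha (h6 0 (by decide) 0 (by decide) 1 (by decide)) (h6 1 (by decide) 1 (by decide) 1 (by decide)) (fun e => absurd (h7 0 (by decide) 0 (by decide) 1 (by decide) 1 (by decide) 1 (by decide) 1 (by decide) e) (by decide)),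
    ss0 ha (h6 0 (by decide) 0 (by decide) 1 (by decide)) (h6 1 (by decide) 0 (by decide) 2 (by decide)) (fun e => absurd (h7 0 (by decide) 0 (by decide) 1 (by decide) 1 (by decide) 0 (by decide) 2 (by decide) e) (by decide)),
    ss0 ha (h6 0 (by decide) 0 (by decide) 1 (by decide)) (h6 1 (by decide) 1 (by decide) 2 (by decide)) (fun e => absurd (h7 0 (by decide) 0 (by decide) 1 (by decide) 1 (by decide) 1 (by decide) 2 (by decide) e) (by decide)),
    (ss0 ha (h6 0 (by decide) 0 (by decide) 2 (by decide)) (h6 0 (by decide) 1 (by decide) 1 (by decide)) (fun e => absurd (h7 0 (by decide) 0 (by decide) 2 (by decide) 0 (by decide) 1 (by decide) 1 (by decide) e) (by decide))).symm,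
    ss1 ha (h6 0 (by decide) 1 (by decide) 1 (by decide)) (h6 0 (by decide) 1 (by decide) 2 (by decide)) (fun e => absurd (h7 0 (by decide) 1 (by decide) 1 (by decide) 0 (by decide) 1 (by decide) 2 (by decide) e) (by decide)),
    ss1 ha (h6 0 (by decide) 1 (by decide) 1 (by decide)) (h6 1 (by decide) 0 (by decide) 0 (by decide)) (fun e => absurd (h7 0 (by decide) 1 (by decide) 1 (by decide) 1 (by decide) 0 (by decide) 0 (by decide) e) (by decide)),
    ss1 ha (h6 0 (by decide) 1 (by decide) 1 (by decide)) (h6 1 (by decide) 1 (by decide) 0 (by decide)) (fun e => absurd (h7 0 (by decide) 1 (by decide) 1 (by decide) 1 (by decide) 1 (by decide) 0 (by decide) e) (by decide)),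
    ss1 ha (h6 0 (by decide) 1 (by decide) 1 (by decide)) (h6 1 (by decide) 0 (by decide) 1 (by decide)) (fun e => absurd (h7 0 (by decide) 1 (by decide) 1 (by decide) 1 (by decide) 0 (by decide) 1 (by decide) e) (by decide)),
    ss1 ha (h6 0 (by decide) 1 (by decide) 1 (by decide)) (h6 1 (by decide) 1 (by decide) 1 (by decide)) (fun e => absurd (h7 0 (by decide) 1 (by decide) 1 (by decide) 1 (by decide) 1 (by decide) 1 (by decide) e) (by decide)),
    ss1 ha (h6 0 (by decide) 1 (by decide) 1 (by decide)) (h6 1 (by decide) 0 (by decide) 2 (by decide)) (fun e => absurd (h7 0 (by decide) 1 (by decide) 1 (by decide) 1 (by decide) 0 (by decide) 2 (by decide) e) (by decide)),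
    ss1 ha (h6 0 (by decide) 1 (by decide) 1 (by decide)) (h6 1 (by decide) 1 (by decide) 2 (by decide)) (fun e => absurd (h7 0 (by decide) 1 (by decide) 1 (by decide) 1 (by decide) 1 (by decide) 2 (by decide) e) (by decide)),
    ss0 ha (h6 0 (by decide) 0 (by decide) 2 (by decide)) (h6 0 (by decide) 1 (by decide) 2 (by decide)) (fun e => absurd (h7 0 (by decide) 0 (by decide) 2 (by decide) 0 (by decide) 1 (by decide) 2 (by decide) e) (by decide)),
    ss0 ha (h6 0 (by decide) 0 (by decide) 2 (by decide)) (h6 1 (by decide) 0 (by decide) 0 (by decide)) (fun e => absurd (h7 0 (by decide) 0 (by decide) 2 (by decide) 1 (by decide) 0 (by decide) 0 (by decide) e) (by decide)),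
    ss0 ha (h6 0 (by decide) 0 (by decide) 2 (by decide)) (h6 1 (by decide) 1 (by decide) 0 (by decide)) (fun e => absurd (h7 0 (by decide) 0 (by decide) 2 (by decide) 1 (by decide) 1 (by decide) 0 (by decide) e) (by decide)),
    ss0 ha (h6 0 (by decide) 0 (by decide) 2 (by decide)) (h6 1 (by decide) 0 (by decide) 1 (by decide)) (fun e => absurd (h7 0 (by decide) 0 (by decide) 2 (by decide) 1 (by decide) 0 (by decide) 1 (by decide) e) (by decide)),
    ss0 ha (h6 0 (by decide) 0 (by decide) 2 (by decide)) (h6 1 (by decide) 1 (by decide) 1 (by decide)) (fun e => absurd (h7 0 (by decide) 0 (by decide) 2 (by decide) 1 (by decide) 1 (by decide) 1 (by decide) e) (by decide)),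
    ss0 ha (h6 0 (by decide) 0 (by decide) 2 (by decide)) (h6 1 (by decide) 0 (by decide) 2 (by decide)) (fun e => absurd (h7 0 (by decide) 0 (by decide) 2 (by decide) 1 (by decide) 0 (by decide) 2 (by decide) e) (by decide)),
    ss0 ha (h6 0 (by decide) 0 (by decide) 2 (by decide)) (h6 1 (by decide) 1 (by decide) 2 (by decide)) (fun e => absurd (h7 0 (by decide) 0 (by decide) 2 (by decide) 1 (by decide) 1 (by decide) 2 (by decide) e) (by decide)),
    ss1 ha (h6 0 (by decide) 1 (by decide) 2 (by decide)) (h6 1 (by decide) 0 (by decide) 0 (by decide)) (fun e => absurd (h7 0 (by decide) 1 (by decide) 2 (by decide) 1 (by decide) 0 (by decide) 0 (by decide) e) (by decide)),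
    ss1 ha (h6 0 (by decide) 1 (by decide) 2 (by decide)) (h6 1 (by decide) 1 (by decide) 0 (by decide)) (fun e => absurd (h7 0 (by decide) 1 (by decide) 2 (by decide) 1 (by decide) 1 (by decide) 0 (by decide) e) (by decide)),
    ss1 ha (h6 0 (by decide) 1 (by decide) 2 (by decide)) (h6 1 (by decide) 0 (by decide) 1 (by decide)) (fun e => absurd (h7 0 (by decide) 1 (by decide) 2 (by decide) 1 (by decide) 0 (by decide) 1 (by decide) e) (by decide)),
    ss1 ha (h6 0 (by decide) 1 (by decide) 2 (by decide)) (h6 1 (by decide) 1 (by decide) 1 (by decide)) (fun e => absurd (h7 0 (by decide) 1 (by decide) 2 (by decide) 1 (by decide) 1 (by decide) 1 (by decide) e) (by decide)),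
    ss1 ha (h6 0 (by decide) 1 (by decide) 2 (by decide)) (h6 1 (by decide) 0 (by decide) 2 (by decide)) (fun e => absurd (h7 0 (by decide) 1 (by decide) 2 (by decide) 1 (by decide) 0 (by decide) 2 (by decide) e) (by decide)),
    ss1 ha (h6 0 (by decide) 1 (by decide) 2 (by decide)) (h6 1 (by decide) 1 (by decide) 2 (by decide)) (fun e => absurd (h7 0 (by decide) 1 (by decide) 2 (by decide) 1 (by decide) 1 (by decide) 2 (by decide) e) (by decide)),
    ss1 ha (h6 1 (by decide) 0 (by decide) 0 (by decide)) (h6 1 (by decide) 1 (by decide) 0 (by decide)) (fun e => absurd (h7 1 (by decide) 0 (by decide) 0 (by decide) 1 (by decide) 1 (by decide) 0 (by decide) e) (by decide)),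
    ss1 ha (h6 1 (by decide) 0 (by decide) 0 (by decide)) (h6 1 (by decide) 0 (by decide) 1 (by decide)) (fun e => absurd (h7 1 (by decide) 0 (by decide) 0 (by decide) 1 (by decide) 0 (by decide) 1 (by decide) e) (by decide)),
    ss1 ha (h6 1 (by decide) 0 (by decide) 0 (by decide)) (h6 1 (by decide) 1 (by decide) 1 (by decide)) (fun e => absurd (h7 1 (by decide) 0 (by decide) 0 (by decide) 1 (by decide) 1 (by decide) 1 (by decide) e) (by decide)),
    ss1 ha (h6 1 (by decide) 0 (by decide) 0 (by decide)) (h6 1 (by decide) 0 (by decide) 2 (by decide)) (fun e => absurd (h7 1 (by decide) 0 (by decide) 0 (by decide) 1 (by decide) 0 (by decide) 2 (by decide) e) (by decide)),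
    ss1 ha (h6 1 (by decide) 0 (by decide) 0 (by decide)) (h6 1 (by decide) 1 (by decide) 2 (by decide)) (fun e => absurd (h7 1 (by decide) 0 (by decide) 0 (by decide) 1 (by decide) 1 (by decide) 2 (by decide) e) (by decide)),
    ss1 ha (h6 1 (by decide) 1 (by decide) 0 (by decide)) (h6 1 (by decide) 0 (by decide) 1 (by decide)) (fun e => absurd (h7 1 (by decide) 1 (by decide) 0 (by decide) 1 (by decide) 0 (by decide) 1 (by decide) e) (by decide)),
    ss1 ha (h6 1 (by decide) 1 (by decide) 0 (by decide)) (h6 1 (by decide) 1 (by decide) 1 (by decide)) (fun e => absurd (h7 1 (by decide) 1 (by decide) 0 (by decide) 1 (by decide) 1 (by decide) 1 (by decide) e) (by decide)),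
    ss1 ha (h6 1 (by decide) 1 (by decide) 0 (by decide)) (h6 1 (by decide) 0 (by decide) 2 (by decide)) (fun e => absurd (h7 1 (by decide) 1 (by decide) 0 (by decide) 1 (by decide) 0 (by decide) 2 (by decide) e) (by decide)),
    ss1 ha (h6 1 (by decide) 1 (by decide) 0 (by decide)) (h6 1 (by decide) 1 (by decide) 2 (by decide)) (fun e => absurd (h7 1 (by decide) 1 (by decide) 0 (by decide) 1 (by decide) 1 (by decide) 2 (by decide) e) (by decide)),
    ss1 ha (h6 1 (by decide) 0 (by decide) 1 (by decide)) (h6 1 (by decide) 1 (by decide) 1 (by decide)) (fun e => absurd (h7 1 (by decide) 0 (by decide) 1 (by decide) 1 (by decide) 1 (by decide) 1 (by decide) e) (by decide)),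
    ss1 ha (h6 1 (by decide) 0 (by decide) 1 (by decide)) (h6 1 (by decide) 0 (by decide) 2 (by decide)) (fun e => absurd (h7 1 (by decide) 0 (by decide) 1 (by decide) 1 (by decide) 0 (by decide) 2 (by decide) e) (by decide)),
    ss1 ha (h6 1 (by decide) 0 (by decide) 1 (by decide)) (h6 1 (by decide) 1 (by decide) 2 (by decide)) (fun e => absurd (h7 1 (by decide) 0 (by decide) 1 (by decide) 1 (by decide) 1 (by decide) 2 (by decide) e) (by decide)),
    ss1 ha (h6 1 (by decide) 1 (by decide) 1 (by decide)) (h6 1 (by decide) 0 (by decide) 2 (by decide)) (fun e => absurd (h7 1 (by decide) 1 (by decide) 1 (by decide) 1 (by decide) 0 (by decide) 2 (by decide) e) (by decide)),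
    ss1 ha (h6 1 (by decide) 1 (by decide) 1 (by decide)) (h6 1 (by decide) 1 (by decide) 2 (by decide)) (fun e => absurd (h7 1 (by decide) 1 (by decide) 1 (by decide) 1 (by decide) 1 (by decide) 2 (by decide) e) (by decide)),
    ss1 ha (h6 1 (by decide) 0 (by decide) 2 (by decide)) (h6 1 (by decide) 1 (by decide) 2 (by decide)) (fun e => absurd (h7 1 (by decide) 0 (by decide) 2 (by decide) 1 (by decide) 1 (by decide) 2 (by decide) e) (by decide))⟩

lemma pos_all {m s t : ℕ} (hm : 2 ≤ m) (hs : 2 ≤ s) (hst : s ≤ t) (h22 : ¬ (s = 2 ∧ t = 2))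
    (h5 : ¬ (m = 2 ∧ s + t = 5)) (hp : ¬ (m = 2 ∧ s = t ∧ s.Prime ∧ 3 ≤ s)) :
    Lab m s t (m * s * t) := by
  by_cases c : s = 2 ∧ t = 3
  · obtain ⟨rfl, rfl⟩ := c
    have : m = 3 ∨ m = 4 ∨ 5 ≤ m := by omega
    rcases this with rfl | rfl | h
    · exact pos323
    · exact pos423
    · exact pos23 m h
  have ht : 3 ≤ t := by omega
  have hq : s + t + 2 ≤ s * t := by
    rcases Nat.eq_or_lt_of_le hs with rfl | h
    · omega
    · nlinarith
  rcases Nat.eq_or_lt_of_le hm with rfl | h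
  · rcases Nat.eq_or_lt_of_le hst with rfl | h
    · have np : ¬ s.Prime := fun p => hp ⟨rfl, rfl, p, ht⟩
      obtain ⟨u, v, hu, hv, rfl⟩ := (Nat.not_prime_iff_exists_mul_eq hs).1 np
      have u2 : 2 ≤ u := by
        rcases u with _ | _ | u <;> omega
      have v2 : 2 ≤ v := by
        rcases v with _ | _ | v <;> omega
      by_cases c4 : u * v = 4
      · rw [c4]; exact pos244
      · exact pos3 u v u2 v2 (by have := Nat.mul_le_mul u2 v2; omega)
    · exact pos2 s t hs h hq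
  · obtain ⟨n, rfl⟩ : ∃ n, m = n + 3 := ⟨m - 3, by omega⟩
    exact pos1 n s t hs ht hq

lemma star_lab (t : ℕ) : Lab 1 1 t (t + 1) := by
  refine ⟨fun _ _ => 0, fun _ y => y + 1, 1, le_rfl, ?_, ?_, ?_, ?_, ?_, ?_, ?_⟩
  · intros; beta_reduce; omega
  · intros; beta_reduce; omega
  · intros; omega
  · intro i hi x hx j hj z hz e; beta_reduce at e; omega
  · intros; beta_reduce; omega
  · intros; beta_reduce; omega
  · intro i hi x hx y hy j hj z hz w hw e; beta_reduce at e; omega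

theorem result (m s t : ℕ) (hm : 1 ≤ m) (hs : 1 ≤ s) (ht : 1 ≤ t)
    (hp : ¬ (m = 2 ∧ s = t ∧ s.Prime ∧ 3 ≤ s)) :
    IsSequential (mK m s t) ↔
      (m = 1 ∧ (s = 1 ∨ t = 1)) ∨
      (2 ≤ m ∧ 2 ≤ s ∧ 2 ≤ t ∧ ¬ (s = 2 ∧ t = 2) ∧ ¬ (m = 2 ∧ s + t = 5)) := by
  constructor
  · rintro ⟨f, c, hc, hf, hb | ⟨hT, hb⟩, hB⟩
    · rw [ed_card] at hb hB
      have L := to_lab f hc hf hb hB
      right
      have k := Nat.le_of_mul_le_mul_left (Nat.mul_assoc m s t ▸ neg_card L) hm
      refine ⟨?_, ?_, ?_, ?_, ?_⟩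
      · by_contra h
        obtain rfl : m = 1 := by omega
        rw [Nat.one_mul] at L
        exact neg_one hs ht L
      · by_contra h
        obtain rfl : s = 1 := by omega
        omega
      · by_contra h
        obtain rfl : t = 1 := by omega
        omega
      · rintro ⟨rfl, rfl⟩; exact neg_22 hm L
      · rintro ⟨rfl, h⟩
        have : s = 1 ∨ s = 2 ∨ s = 3 ∨ s = 4 := by omega
        rcases this with rfl | rfl | rfl | rfl
        · omega
        · obtain rfl : t = 3 := by omega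
          exact neg_223 L
        · obtain rfl : t = 2 := by omega
          exact neg_223 L.swap
        · obtain rfl : t = 1 := by omega
          omega
    · left
      have k := tree_card hT
      have m1 : m = 1 := by
        have : m ∣ m * s * t + 1 := k ▸ Nat.dvd_mul_right _ _
        rw [Nat.mul_assoc] at this
        exact Nat.dvd_one.1 ((Nat.dvd_add_right (Nat.dvd_mul_right _ _)).1 this)
      subst m1
      refine ⟨rfl, ?_⟩
      by_contra h
      obtain ⟨a, rfl⟩ : ∃ a, s = a + 2 := ⟨s - 2, by omega⟩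
      obtain ⟨b, rfl⟩ : ∃ b, t = b + 2 := ⟨t - 2, by omega⟩
      nlinarith
  · rintro (⟨rfl, h⟩ | ⟨h1, h2, h3, h4, h5⟩)
    · have L : Lab 1 s t (1 * s * t + 1) := by
        rcases h with rfl | rfl
        · simpa using star_lab t
        · simpa using (star_lab s).swap
      obtain ⟨f, c, hc, hf, hb, hB⟩ := of_lab L
      refine ⟨f, c, hc, hf, Or.inr ⟨star_tree hs ht h, fun v => ?_⟩, ?_⟩
      · rw [ed_card]; exact Nat.lt_succ_iff.1 (hb v)
      · rw [ed_card]; exact hB
    · have L : Lab m s t (m * s * t) := by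
        rcases Nat.le_total s t with h | h
        · exact pos_all h1 h2 h h4 h5 hp
        · rw [Nat.mul_right_comm]
          exact (pos_all h1 h3 h (by omega) (by omega)
            (by rintro ⟨a, rfl, b⟩; exact hp ⟨a, rfl, b⟩)).swap
      obtain ⟨f, c, hc, hf, hb, hB⟩ := of_lab L
      refine ⟨f, c, hc, hf, Or.inl ?_, ?_⟩
      · rw [ed_card]; exact hb
      · rw [ed_card]; exact hB

end Pool.Agent.Results.MP_c865f9_co.Main
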